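import Pool.Agent.helper59.GF.Defs

set_option autoImplicit false

/-!
# Rows `gf:*` (MP_06d6be_co): statements with proofs

The paper proof is in the header of `Defs.lean`.  Row `XX`: file `Pool/Agent/<seat>/GF/XX.lean`,
namespace `Pool.Agent.GF`, `import Pool.Agent.helper59.GF.Spec`, the exact theorem line is in the
lock note (other rows only as hypotheses `(hYY : YY_stmt)`).
-/

namespace Pool.Agent.GF

open Filter Topology

/-! ### Levels -/

/-- DVD (short-medium). Divided differences of order `p + 1` kill polynomials of degree `≤ p`.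
Proof: `P` is its Lagrange interpolant at the `p + 2` nodes (`Lagrange.eq_interpolate...`); the
coefficient of `X ^ (p + 1)` of the interpolant is the sum (each Lagrange basis polynomial has the
leading coefficient `∏ (s r - s r')⁻¹`), and it is `0` because `P` has degree `≤ p`. -/
def DVD_stmt : Prop := ∀ (p : ℕ) (s : Fin (p + 2) → ℝ), Function.Injective s →
  ∀ P : Polynomial ℝ, P.natDegree ≤ p →
    ∑ r, P.eval (s r) / ∏ r' ∈ Finset.univ.erase r, (s r - s r') = 0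

/-- LVL (short-medium, needs DVD). `mu` is an affine relation between the levels. Apply DVD to
`∏_q (X - q - 1/2)` and to `∏_(q' ≠ q) (X - q' - 1/2)`, whose value is `ell p s * Yl p s q`. -/
def LVL_stmt : Prop := ∀ (p : ℕ) (s : Fin (p + 2) → ℝ), Function.Injective s →
  (∑ r, mu p s r = 0) ∧
  ((∀ r, ell p (s r) ≠ 0) → ∀ q : Fin p, ∑ r, mu p s r * Yl p (s r) q = 0)

/-- LVM (short, needs LVL). Consequence for linear maps into any module:
`A Y = ∑ q, Y q • A (Pi.single q 1)`. -/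
def LVM_stmt : Prop := ∀ (p : ℕ) (s : Fin (p + 2) → ℝ), Function.Injective s →
  (∀ r, ell p (s r) ≠ 0) → ∀ A : (Fin p → ℝ) →ₗ[ℝ] ℝ, ∑ r, mu p s r * A (Yl p (s r)) = 0

/-- PFR (medium). Partial fractions. Let `a0` be the coefficient of `X ^ p` in `P` and
`m q = q + 1/2`; `P - a0 * ∏ (X - m q)` has degree `< p`, so it is its Lagrange interpolant at the
`p` nodes `m q`, i.e. `∑ q, a q * ∏_(q' ≠ q) (X - m q')`. Divide by `ell p s`. (`p = 0`: `P` is
constant.) -/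
def PFR_stmt : Prop := ∀ (p : ℕ) (P : Polynomial ℝ), P.natDegree ≤ p →
  ∃ (a0 : ℝ) (a : Fin p → ℝ), ∀ s : ℝ, ell p s ≠ 0 →
    P.eval s = ell p s * (a0 + ∑ q, a q * Yl p s q)

/-- INT (short, needs PFR). Affine functions with given values at the levels of `p + 1` different
nodes: the Lagrange polynomial `P` of degree `≤ p` with `P (s r) = ell p (s r) * v r`. -/
def INT_stmt : Prop := ∀ (p : ℕ) (s : Fin (p + 1) → ℝ), Function.Injective s →
  (∀ r, ell p (s r) ≠ 0) → ∀ v : Fin (p + 1) → ℝ,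
    ∃ (a0 : ℝ) (a : Fin p → ℝ), ∀ r, a0 + ∑ q, a q * Yl p (s r) q = v r

/-- UNQ (short-medium, needs INT, LVL). The affine relation is unique. All `mu` are `≠ 0`. Let `c =
ν last / mu last`. For `r₀ ≠ last` take by INT (nodes `s ∘ castSucc`) the affine function `A` which is
`1` at `r₀` and `0` at the other nodes `≠ last`; then `ν r₀ + ν last * A(last) = 0` and
`mu r₀ + mu last * A(last) = 0`. -/
def UNQ_stmt : Prop := ∀ (p : ℕ) (s : Fin (p + 2) → ℝ), Function.Injective s →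
  (∀ r, ell p (s r) ≠ 0) → ∀ ν : Fin (p + 2) → ℝ, (∑ r, ν r = 0) →
    (∀ q : Fin p, ∑ r, ν r * Yl p (s r) q = 0) → ∃ c : ℝ, ∀ r, ν r = c * mu p s r

/-- DET (medium, needs UNQ). The orientation determinant. Expand along the column of the `x r`
(index `1` of `Fin (p + 2)`): the determinant is `∑ r, ν r * x r` with cofactors `ν`; for `x` constant
or `x r = Yl p (s r) q` two columns are proportional, so `∑ ν r = 0`, `∑ ν r * Yl = 0`, and `ν = c mu` by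
UNQ. If `c = 0` the determinant vanishes for all `x`, so the other `p + 1` columns `1, Yl q` are
linearly dependent: `a0 + ∑ a q Yl p (s r) q = 0` for all `r` with `(a0, a) ≠ 0`; then the polynomial
`a0 ∏ (X - m q) + ∑ a q ∏_(q' ≠ q) (X - m q')` of degree `≤ p` has `p + 2` roots, so it is `0`, so `a0 = 0`
(coefficient of `X ^ p`), `a q = 0` (value at `m q`). -/
def DET_stmt : Prop := ∀ (p : ℕ) (s : Fin (p + 2) → ℝ), Function.Injective s →
  (∀ r, ell p (s r) ≠ 0) → ∃ c : ℝ, c ≠ 0 ∧ ∀ x : Fin (p + 2) → ℝ,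
    Matrix.det (Matrix.of fun r j : Fin (p + 2) =>
      (Fin.cons 1 (Fin.cons (x r) (Yl p (s r)) : Fin (p + 1) → ℝ) : Fin (p + 2) → ℝ) j) =
    c * ∑ r, mu p s r * x r

/-- PRM (short). Permuting the nodes permutes the weights. -/
def PRM_stmt : Prop := ∀ (p : ℕ) (s : Fin (p + 2) → ℝ) (σ : Equiv.Perm (Fin (p + 2)))
  (r : Fin (p + 2)), mu p (s ∘ σ) r = mu p s (σ r)

/-- TOK (medium-long, needs INT, LVL, DET). From `Good0` to `GoodK (p + 1)`.
Positions `Fin.cons (x t i) (Yl p (s i))`, constants `a t`, linear maps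
`z ↦ z 0 • b t + c t (Fin.tail z)`. Order types: DET. Separation: let `s'`, `u` be given,
`s'.card ≤ p + 2`; extend `s'` to a set with exactly `p + 2` elements (`Fintype.card ι ≥ p + 2`) and
write it as the range of an injective `I : Fin (p + 2) → ι`. We may assume that `τ` is not empty.
Take `f` from SepT. Let `m r` be the minimum over `t` of `mu r * f (point of t, I r)`; `∑ m r > 0`
(choose the minimising `t r`), all `mu r ≠ 0`. An affine function `A` of the level with given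
values `A r` at the `p + 2` levels exists as soon as `∑ mu r * A r = 0` (INT for the nodes different
from the last one, LVL). Let `e r = 1` if `I r ∈ u` and `-1` otherwise.
(1) `e r * mu r > 0` for all `r`: take `F = f + A` with `A r = ((∑ m) / (p + 2) - m r) / mu r`; then
`mu r * F ≥ (∑ m) / (p + 2) > 0`. (2) `e r * mu r < 0` for all `r`: `-F`. (3) Otherwise let
`S₊ = ∑_(e r mu r > 0) |mu r| > 0`, `S₋ = ∑_(e r mu r < 0) |mu r| > 0`, `F = A` with `A r = e r / S₊` or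
`e r / S₋`. The threshold is `0` always. -/
def TOK_stmt : Prop := ∀ (p : ℕ) (V ι τ : Type) [AddCommGroup V] [Module ℝ V] [Fintype ι]
  [Finite τ], p + 2 ≤ Fintype.card ι → Good0 p V ι τ → Pool.Agent.helper8.GK.GoodK (p + 1) V ι τ

/-- EQV (short). Transport: of `V`, relabelling of the sets, subfamilies of the flats. -/
def EQV_stmt : Prop := ∀ (p : ℕ) (V W ι ι' τ τ' : Type) [AddCommGroup V] [Module ℝ V]
  [AddCommGroup W] [Module ℝ W], (V ≃ₗ[ℝ] W) → (ι' ≃ ι) → (τ' ↪ τ) →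
  (GoodH p V ι τ → GoodH p W ι' τ') ∧ (Good0 p V ι τ → Good0 p W ι' τ')

/-- INI (short). The start: `p + 1` sets, one flat. Nodes `-1, …, -(p+1)`, everything else `0`,
`ρ = proj 0`; there is no injective `Fin (p + 2) → Fin (p + 1)`. -/
def INI_stmt : Prop := ∀ p : ℕ, GoodH p (Fin 1 → ℝ) (Fin (p + 1)) (Fin 1)

/-! ### Real numbers: the windows -/

/-- LAM (short-medium, needs LVL). Signs: at the nodes `0, …, p + 1`, `ell p r` has `p - r` negative
factors (`r ≤ p`), none for `r = p + 1`, and `∏_(r' ≠ r) (r - r')` has `p + 1 - r`. So `mu_r < 0` for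
`r ≤ p`, `mu_(p+1) > 0`. The sum is `1` by LVL. -/
def LAM_stmt : Prop := ∀ p : ℕ, 0 < mu p (cen p) (Fin.last (p + 1)) ∧ (∀ q, 0 < lam p q) ∧
  ∑ q, lam p q = 1

/-- TIM (medium). The lexicographic order. `dig n q = n / m ^ (p - q) % m`, `X q j = - Λ ^ (p - q) * j`,
`Λ ≥ 1` large. Let `n + 1 < m ^ (p + 1)` and let `e` be the number of trailing digits `m - 1` of `n`
in base `m` (`e ≤ p`). From `n` to `n + 1` the digits of the exponents `e' < e` change from `m - 1` to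
`0`, the digit of the exponent `e` increases by one, the others are unchanged. With
`l₀ ≤ lam ≤ l₁`: `T (n+1) - T n ≥ l₀ Λ^e - l₁ m (p+1) Λ^(e-1) ≥ l₀ Λ^e / 2` (second term only if `e ≥ 1`),
and `X q (new) - X q (old) = Λ^(e') (m - 1) ≤ m Λ^(e-1) ≤ l₀ Λ^e / 16` for a digit that is reset, `≤ 0`
otherwise. So `Λ = 1 + 16 m (p + 1) (1 + l₁) / l₀` will do. -/
def TIM_stmt : Prop := ∀ p m : ℕ, 1 ≤ m → (∀ q, 0 < lam p q) →
  ∃ (X : Fin (p + 1) → Fin m → ℝ) (dig : ℕ → Fin (p + 1) → Fin m) (T : ℕ → ℝ),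
    IsTime p m X dig T

/-- SST (short-medium). Static sets. For `n ≤ n'` the right side is
`∑_(n ≤ i < n') [(T n' - M i) (-(x (i+1) - x i)) + (M i - T n) (T (i+1) - T i) / 2]` with
`M i = (T i + T (i+1)) / 2`; here `T n ≤ M i ≤ T n'`, `-(x (i+1) - x i) ≥ -(T (i+1) - T i) / 8`,
`∑ (M i - T n) (T (i+1) - T i) = ∑ (T n' - M i) (T (i+1) - T i) = (T n' - T n)^2 / 2`. For `n' ≤ n` it is
`∑_(n' ≤ i < n) [(M i - T n') (-(x (i+1) - x i)) + (T n - M i) (T (i+1) - T i) / 2]`. -/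
def SST_stmt : Prop := ∀ (N : ℕ) (T x : ℕ → ℝ), (∀ i, i + 1 < N → T i < T (i + 1)) →
  (∀ i, i + 1 < N → x (i + 1) - x i ≤ (T (i + 1) - T i) / 8) → ∀ n n', n < N → n' < N →
  3 / 16 * (T n' - T n) ^ 2 ≤
    GG T x n' - GG T x n + T n' * (x n - x n') - T n / 2 * (T n' - T n)

/-- EMV (short-medium). Moving sets. `∑ l q * GG T (x q) n` has the increments `- M i (T (i+1) - T i) / 2`,
so it is `- (T n ^ 2 - T 0 ^ 2) / 4` (induction on `n`). -/
def EMV_stmt : Prop := ∀ (k : ℕ) (l : Fin k → ℝ) (x : Fin k → ℕ → ℝ) (T : ℕ → ℝ),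
  ∑ q, l q = 1 → (∀ n, T n = -∑ q, l q * x q n) → ∀ n n',
  ∑ q, l q * (GG T (x q) n' - GG T (x q) n) + T n / 2 * (T n' - T n) = -(1 / 4) * (T n' - T n) ^ 2

/-- TRV (medium, needs SST, EMV). Let `A = T n₀ + ε (i₀ + 1/2)`, `C = T n₀ / 2`, `x_q(n) = X q (dig n q)`,
`K q = GG_q n₀ - T n₀ x_q(n₀) + ε (i₀ + 1/2) (C - x_q(n₀)) - C A`. For `n = n₀` the first difference (right
side minus `K q`) is `0` and the second one (left side minus `∑ lam q K q`) is
`- ε^2 (β - i₀ - 1/2)^2 ≤ - ε^2/4` (here `∑ lam q x_q(n₀) = - T n₀`). For `n ≠ n₀` at `ε = 0` the first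
difference is the right side of SST (with `n₀, n`), `≥ (3/16) (T n - T n₀)^2 > 0`, the second one is
`- (T n - T n₀)^2 / 4 < 0` by EMV; both are polynomials in `ε`, there are finitely many `n₀, n, i₀, β, q`,
so for small `ε` the first one is `≥ 0` and the second one is `≤ - ε^2/4`. -/
def TRV_stmt : Prop := ∀ (p m : ℕ) (X : Fin (p + 1) → Fin m → ℝ) (dig : ℕ → Fin (p + 1) → Fin m)
  (T : ℕ → ℝ), IsTime p m X dig T → ∑ q, lam p q = 1 →
  ∀ᶠ ε in 𝓝[>] (0 : ℝ), ∀ n₀ i₀ : ℕ, n₀ < m ^ (p + 1) → i₀ < m → ∃ K : Fin (p + 1) → ℝ,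
    (∀ (q : Fin (p + 1)) (n β : ℕ), n < m ^ (p + 1) → β < m →
      K q ≤ (al T ε n β - (T n₀ + ε * (i₀ + 1 / 2))) * X q (dig n₀ q) +
        gm T (fun i => X q (dig i q)) ε n β - T n₀ / 2 * al T ε n β) ∧
    (∀ n β : ℕ, n < m ^ (p + 1) → β < m →
      (al T ε n β - (T n₀ + ε * (i₀ + 1 / 2))) * (-al T ε n β + ε * (i₀ + 1 / 2)) +
        ∑ q, lam p q * gm T (fun i => X q (dig i q)) ε n β - T n₀ / 2 * al T ε n β ≤
      ∑ q, lam p q * K q - ε ^ 2 / 4)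

/-! ### The nodes -/

/-- the place of a new set in the hierarchy of the nodes -/
def idx {p m : ℕ} (i : Fin (p + 2) × Fin m) : ℕ := (i.1 : ℕ) * m + (i.2 : ℕ)

/-- CLP (short-medium). The closest pair: among all pairs of the tuple of the same class take the
one with the largest `min idx`; `r₀` the one with the smaller `idx` (`idx` is injective). If another
pair `{r, r'}` of one class had `min idx ≥ idx (I r₀)`, then by maximality `min idx = idx (I r₀)`, so `r₀`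
is in the pair, the other element `r₂ ≠ r₁` has a larger `idx` and the same class, and `{r₁, r₂}` has a
larger `min idx`. -/
def CLP_stmt : Prop := ∀ (p m : ℕ) (I : Fin (p + 2) → Fin (p + 2) × Fin m), Function.Injective I →
  ¬ Function.Injective (fun r => (I r).1) → ∃ r₀ r₁, r₀ ≠ r₁ ∧ (I r₀).1 = (I r₁).1 ∧
    idx (I r₀) < idx (I r₁) ∧ ∀ r r', r ≠ r' → (I r).1 = (I r').1 →
      (r = r₀ ∧ r' = r₁) ∨ (r = r₁ ∧ r' = r₀) ∨ min (idx (I r)) (idx (I r')) < idx (I r₀)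

/-- MUR (medium-long). Ratios of the weights for `δ → 0+`. Write `s r = nd p m δ (I r)`, `A = 2 p + 6`,
`N = idx (I r₀)`. For `0 < δ ≤ 1/4`: different classes: `1/2 ≤ |s r - s r'| ≤ p + 2`; same class,
`min idx = a`: `δ^(A^(a+1)) / 2 ≤ |s r - s r'| ≤ δ^(A^(a+1))`. So `|s r₀ - s r₁| ≤ δ^(A^(N+1))`, and all other
pairs have `|s r - s r'| ≥ δ^(A^N) / 2` (the hypothesis gives `a + 1 ≤ N`). `ell p (s r)` tends to
`ell p (I r).1 ≠ 0` (a half-integer product). For `r ≠ r₀, r₁`: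
`|mu r / mu r₀| ≤ C δ^(A^(N+1)) (p+2)^(p+1) / (δ^(A^N) / 2)^(p+1) → 0` as `A > p + 1`. And
`mu r₁ / mu r₀ = - (ell (s r₁) / ell (s r₀)) * ∏_(r' ≠ r₀, r₁) (s r₀ - s r') / (s r₁ - s r')`, each factor is
`1 + (s r₀ - s r₁) / (s r₁ - s r') → 1`. -/
def MUR_stmt : Prop := ∀ (p m : ℕ) (I : Fin (p + 2) → Fin (p + 2) × Fin m) (r₀ r₁ : Fin (p + 2)),
  Function.Injective I → r₀ ≠ r₁ → (I r₀).1 = (I r₁).1 → idx (I r₀) < idx (I r₁) →
  (∀ r r', r ≠ r' → (I r).1 = (I r').1 →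
      (r = r₀ ∧ r' = r₁) ∨ (r = r₁ ∧ r' = r₀) ∨ min (idx (I r)) (idx (I r')) < idx (I r₀)) →
  (∀ᶠ δ in 𝓝[>] (0 : ℝ), mu p (nd p m δ ∘ I) r₀ ≠ 0) ∧
  Tendsto (fun δ => mu p (nd p m δ ∘ I) r₁ / mu p (nd p m δ ∘ I) r₀) (𝓝[>] 0) (𝓝 (-1)) ∧
  ∀ r, r ≠ r₀ → r ≠ r₁ →
    Tendsto (fun δ => mu p (nd p m δ ∘ I) r / mu p (nd p m δ ∘ I) r₀) (𝓝[>] 0) (𝓝 0)

/-- ASY (short-medium, needs CLP, MUR). `σ = 1 / mu r₀`: `σ * ∑ mu r F r = F r₀ - F r₁ +
(mu r₁/mu r₀ + 1) F r₁ + ∑_(others) (mu r / mu r₀) F r ≥ φ - B * o(1)`. -/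
def ASY_stmt : Prop := ∀ (p m : ℕ) (I : Fin (p + 2) → Fin (p + 2) × Fin m), Function.Injective I →
  ¬ Function.Injective (fun r => (I r).1) → ∃ r₀ r₁, r₀ ≠ r₁ ∧ (I r₀).1 = (I r₁).1 ∧
    ∀ B φ : ℝ, 0 < φ → ∀ᶠ δ in 𝓝[>] (0 : ℝ), ∃ σ : ℝ, ∀ F : Fin (p + 2) → ℝ, (∀ r, |F r| ≤ B) →
      φ ≤ F r₀ - F r₁ → 0 < σ * ∑ r, mu p (nd p m δ ∘ I) r * F r

/-- NDE (short-medium). For small `δ > 0` the nodes are different, avoid the finite set `Z` and are no
roots of `ell`. -/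
def NDE_stmt : Prop := ∀ (p m : ℕ) (Z : Set ℝ), Z.Finite → ∀ᶠ δ in 𝓝[>] (0 : ℝ),
  Function.Injective (nd p m δ) ∧ ∀ i, nd p m δ i ∉ Z ∧ ell p (nd p m δ i) ≠ 0

/-- TRC (short-medium). Continuity at the centres (`ell`, the product of the differences and the
denominators of `Yl` do not vanish at the integers `0, …, p + 1`). -/
def TRC_stmt : Prop := ∀ (p m : ℕ) (I : Fin (p + 2) → Fin (p + 2) × Fin m), (∀ r, (I r).1 = r) →
  (∀ r, Tendsto (fun δ => mu p (nd p m δ ∘ I) r) (𝓝[>] 0) (𝓝 (mu p (cen p) r))) ∧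
  ∀ r q, Tendsto (fun δ => Yl p (nd p m δ (I r)) q) (𝓝[>] 0) (𝓝 (Yl p (cen p r) q))

/-! ### The local block -/

/-- AFB (short, needs INT, LVL). Affine functions with given values at the centres `0, …, p`; the
value at the centre `p + 1` is given by the relation `mu`, i.e. by `lam` (`mu_(p+1) ≠ 0`). -/
def AFB_stmt : Prop := ∀ (p : ℕ) (v : Fin (p + 1) → ℝ), ∃ (B : (Fin p → ℝ) →ₗ[ℝ] ℝ) (e : ℝ),
  (∀ q : Fin (p + 1), B (Yl p (cen p q.castSucc)) + e = v q) ∧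
  B (Yl p (cen p (Fin.last (p + 1)))) + e = ∑ q, lam p q * v q

/-- positions in the local block: static sets at `X q j`, moving sets at `- al + ε (j + 1/2)` -/
noncomputable def xiL {p m : ℕ} (X : Fin (p + 1) → Fin m → ℝ) (T : ℕ → ℝ) (ε : ℝ)
    (t : Fin (m ^ (p + 1)) × Fin m) (i : Fin (p + 2) × Fin m) : ℝ :=
  if h : (i.1 : ℕ) < p + 1 then X ⟨i.1, h⟩ i.2
  else -al T ε t.1 t.2 + ε * ((i.2 : ℕ) + 1 / 2)

/-- slopes in the local block -/
noncomputable def slL {p m : ℕ} (T : ℕ → ℝ) (ε : ℝ) (t : Fin (m ^ (p + 1)) × Fin m) : ℝ :=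
  al T ε t.1 t.2

/-- `B`, `e` take the right values at the centres -/
def IsAff {p m : ℕ} (X : Fin (p + 1) → Fin m → ℝ) (dig : ℕ → Fin (p + 1) → Fin m)
    (T : ℕ → ℝ) (ε : ℝ) (B : Fin (m ^ (p + 1)) × Fin m → (Fin p → ℝ) →ₗ[ℝ] ℝ)
    (e : Fin (m ^ (p + 1)) × Fin m → ℝ) : Prop :=
  ∀ t : Fin (m ^ (p + 1)) × Fin m,
    (∀ q : Fin (p + 1), B t (Yl p (cen p q.castSucc)) + e t =
      gm T (fun i => X q (dig i q)) ε t.1 t.2) ∧
    B t (Yl p (cen p (Fin.last (p + 1)))) + e t =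
      ∑ q, lam p q * gm T (fun i => X q (dig i q)) ε t.1 t.2

/-- LTR (medium, needs TRC, LAM). Transversal tuples. Given: the conclusion of TRV for this `ε`. Let
`n₀` be the window of the static sets of `I`, `i₀` the moving set. Take `α = T n₀ + ε (i₀ + 1/2)`,
`β = T n₀ / 2`, `γ = -1`. At the centres (instead of the nodes) the sum is
`mu_last * (∑ lam q * H q - Hm) ≥ mu_last * ε^2 / 4 > 0`, where `H q ≥ K q` and `Hm ≤ ∑ lam q * K q - ε^2/4` are
the expressions in TRV (`mu_q = - lam q * mu_last`). For each of the finitely many `t` the sum at the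
nodes tends to the sum at the centres for `δ → 0+` (TRC; `B t` is linear, hence continuous). -/
def LTR_stmt : Prop := ∀ (p m : ℕ) (X : Fin (p + 1) → Fin m → ℝ) (dig : ℕ → Fin (p + 1) → Fin m)
  (T : ℕ → ℝ) (ε : ℝ), IsTime p m X dig T → 0 < ε →
  (∀ n₀ i₀ : ℕ, n₀ < m ^ (p + 1) → i₀ < m → ∃ K : Fin (p + 1) → ℝ,
    (∀ (q : Fin (p + 1)) (n β : ℕ), n < m ^ (p + 1) → β < m →
      K q ≤ (al T ε n β - (T n₀ + ε * (i₀ + 1 / 2))) * X q (dig n₀ q) +
        gm T (fun i => X q (dig i q)) ε n β - T n₀ / 2 * al T ε n β) ∧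
    (∀ n β : ℕ, n < m ^ (p + 1) → β < m →
      (al T ε n β - (T n₀ + ε * (i₀ + 1 / 2))) * (-al T ε n β + ε * (i₀ + 1 / 2)) +
        ∑ q, lam p q * gm T (fun i => X q (dig i q)) ε n β - T n₀ / 2 * al T ε n β ≤
      ∑ q, lam p q * K q - ε ^ 2 / 4)) →
  ∀ (B : Fin (m ^ (p + 1)) × Fin m → (Fin p → ℝ) →ₗ[ℝ] ℝ) (e : Fin (m ^ (p + 1)) × Fin m → ℝ),
  IsAff X dig T ε B e → ∀ I : Fin (p + 2) → Fin (p + 2) × Fin m, (∀ r, (I r).1 = r) →
  ∀ᶠ δ in 𝓝[>] (0 : ℝ), LocSep p (nd p m δ) (xiL X T ε) (slL T ε) e B I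

/-- LNT (medium, needs ASY). Tuples with two sets of one class. Take `r₀, r₁` from ASY. Static class:
`F r = ξ`, `F r₀ - F r₁ = X q j - X q j' ≠ 0`. Moving class: `F r = ξ + al`, `F r₀ - F r₁ = ε (j - j') ≠ 0`.
`B` a common bound of the finitely many values, `φ = |F r₀ - F r₁|`. `LocSep` with `α = ± σ`, `β = 0` or
`± σ`, `γ = 0`. -/
def LNT_stmt : Prop := ∀ (p m : ℕ) (X : Fin (p + 1) → Fin m → ℝ) (T : ℕ → ℝ) (ε : ℝ),
  (∀ q, Function.Injective (X q)) → 0 < ε →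
  ∀ (B : Fin (m ^ (p + 1)) × Fin m → (Fin p → ℝ) →ₗ[ℝ] ℝ) (e : Fin (m ^ (p + 1)) × Fin m → ℝ)
  (I : Fin (p + 2) → Fin (p + 2) × Fin m), Function.Injective I →
  ¬ Function.Injective (fun r => (I r).1) →
  ∀ᶠ δ in 𝓝[>] (0 : ℝ), LocSep p (nd p m δ) (xiL X T ε) (slL T ε) e B I

/-- LDI (medium, needs TRC, LAM). The flats of the local block see different order types. At the
centres the sum for the window `n` and the moving set `i` is
`mu_last * (T n - T n' - ε β' + ε (i + 1/2))` in the flat `(n', β')`. `t = (n, β)`, `t' = (n', β')`, say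
`n < n'` or (`n = n'` and `β < β'`). Take the static sets of `dig n` and the moving set `i = m - 1` in
the first case (values `ε (m - 1/2 - β) > 0` and `≤ T n - T n' + ε m < 0`), `i = β` in the second
(`ε/2 > 0`, `≤ - ε/2 < 0`). For `δ → 0+` the sums tend to the sums at the centres. -/
def LDI_stmt : Prop := ∀ (p m : ℕ) (X : Fin (p + 1) → Fin m → ℝ) (dig : ℕ → Fin (p + 1) → Fin m)
  (T : ℕ → ℝ) (ε : ℝ), IsTime p m X dig T → 0 < ε →
  (∀ n n' : ℕ, n < n' → n' < m ^ (p + 1) → ε * m < T n' - T n) →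
  ∀ᶠ δ in 𝓝[>] (0 : ℝ), Dist p (nd p m δ) (xiL X T ε)

/-- LOC (medium; from LAM, TIM, TRV, AFB, LTR, LNT, LDI, NDE, PRM). The local block. Choose `X, dig, T` by
TIM, `ε > 0` small (TRV and `ε m < T n' - T n` for `n < n'`), `B, e` by AFB, then `δ` small. A tuple `I`
with different classes: the classes are a permutation `π` of `Fin (p + 2)`; LTR for `I ∘ π⁻¹`, and
`LocSep` is invariant under permutations of the tuple (PRM). -/
def LOC_stmt : Prop := ∀ (p m : ℕ), 1 ≤ m → ∀ Z : Set ℝ, Z.Finite →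
  ∃ (s : Fin (p + 2) × Fin m → ℝ) (ξ : Fin (m ^ (p + 1)) × Fin m → Fin (p + 2) × Fin m → ℝ)
    (sl e : Fin (m ^ (p + 1)) × Fin m → ℝ)
    (B : Fin (m ^ (p + 1)) × Fin m → (Fin p → ℝ) →ₗ[ℝ] ℝ),
    Function.Injective s ∧ (∀ i, s i ∉ Z ∧ ell p (s i) ≠ 0) ∧
    (∀ I, Function.Injective I → LocSep p s ξ sl e B I) ∧ Dist p s ξ

/-! ### The block in the large -/

/-- KAP (medium, needs PFR). Generic `κ`. For a tuple with a new set and an old set let
`Φ (a0, a) = ∑_(new r) mu r * (a0 + ∑ a q * Yl q)`. `Φ ≠ 0`: with `P = ∏_(new r' ≠ r₀) (X - s r')`, of degree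
`≤ p`, PFR gives `(a0, a)` with `Φ (a0, a) = P (s r₀) / ∏_(r' ≠ r₀) (s r₀ - s r') ≠ 0`. For
`κ = (ς, ς^2, …, ς^p)` the number `Φ (1, κ)` is a polynomial in `ς` with the coefficients
`Φ (1, 0), Φ (0, e_0), …`, not all `0`, so it has finitely many roots; take `ς > 0` small. -/
def KAP_stmt : Prop := ∀ (p : ℕ) (ι : Type) [Finite ι] (s : ι → ℝ), Function.Injective s →
  (∀ i, ell p (s i) ≠ 0) → ∀ (N : ι → Prop) [DecidablePred N] (κ₀ : ℝ), 0 < κ₀ →
  ∃ κ : Fin p → ℝ, (∀ q, |κ q| < κ₀) ∧ ∀ I : Fin (p + 2) → ι, Function.Injective I →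
    (∃ r, N (I r)) → (∃ r, ¬ N (I r)) →
    ∑ r, (if N (I r) then mu p (s ∘ I) r * (1 + ∑ q, κ q * Yl p (s (I r)) q) else 0) ≠ 0

/-- BOO (medium). Old tuples, `η` small. With `f` from the hypothesis take `f ∘ (id × fst)`; its value
is the old one minus `η * sl * x * f (0, w)`; finitely many flats. -/
def BOO_stmt : Prop := ∀ (p : ℕ) (V ι ι' τ τ' : Type) [AddCommGroup V] [Module ℝ V] [Finite τ]
  [Finite τ'] (s : ι → ℝ) (s' : ι' → ℝ) (x : τ → ι → ℝ) (ξ : τ' → ι' → ℝ) (a b : τ → V)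
  (c : τ → (Fin p → ℝ) →ₗ[ℝ] V) (sl e : τ' → ℝ) (B : τ' → (Fin p → ℝ) →ₗ[ℝ] ℝ) (w : V)
  (I : Fin (p + 2) → ι), SepT p s x a b c I →
  ∀ᶠ η in 𝓝[>] (0 : ℝ), ∀ (κ : Fin p → ℝ) (L : ℝ),
    SepT p (sN s s') (xN p s' x ξ κ L) (aN a sl e L) (bN b sl w η) (cN c B sl κ L)
      (fun r => Sum.inl (I r))

/-- BNN (medium-long, needs LVL, LVM). New tuples. With `α, β, γ` from `LocSep` take
`f (x, (v, y)) = α x - β / (η L) * ρ v + γ y`. For the set `j` of level `Y` and the flat `(t, t')`, with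
`x = L (1 + κ Y) + ξ`: `ρ v = ρ (a t) + ρ (c t Y) - η sl x`, `y = sl ξ + B Y + e` exactly, so
`f = α L (1 + κ Y) + [α ξ + β sl + γ (sl ξ + B Y + e)] + err`,
`err = β sl (κ Y + ξ / L) - β / (η L) (ρ (a t) + ρ (c t Y))`. The first term cancels in `∑ mu r f` (LVL), the
second one gives a sum `≥ g > 0` for all the finitely many choices, and `∑ |mu r| |err| < g` for `κ`
small and then `L` large. -/
def BNN_stmt : Prop := ∀ (p : ℕ) (V ι ι' τ τ' : Type) [AddCommGroup V] [Module ℝ V] [Finite τ]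
  [Finite τ'] (s : ι → ℝ) (s' : ι' → ℝ) (x : τ → ι → ℝ) (ξ : τ' → ι' → ℝ) (a b : τ → V)
  (c : τ → (Fin p → ℝ) →ₗ[ℝ] V) (sl e : τ' → ℝ) (B : τ' → (Fin p → ℝ) →ₗ[ℝ] ℝ)
  (ρ : V →ₗ[ℝ] ℝ) (w : V), (∀ t, ρ (b t) = 0) → ρ w = 1 → Function.Injective s' →
  (∀ i, ell p (s' i) ≠ 0) → ∀ I : Fin (p + 2) → ι', Function.Injective I →
  LocSep p s' ξ sl e B I → ∀ η : ℝ, 0 < η → ∃ κ₀ : ℝ, 0 < κ₀ ∧ ∀ κ : Fin p → ℝ,
    (∀ q, |κ q| < κ₀) → ∀ᶠ L in atTop,
      SepT p (sN s s') (xN p s' x ξ κ L) (aN a sl e L) (bN b sl w η) (cN c B sl κ L)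
        (fun r => Sum.inr (I r))

/-- BMX (short-medium). Mixed tuples, `f = ± x`: `∑ mu r x r = L * Φ + O(1)`, `Φ ≠ 0` the given sum. -/
def BMX_stmt : Prop := ∀ (p : ℕ) (V ι ι' τ τ' : Type) [AddCommGroup V] [Module ℝ V] [Finite τ]
  [Finite τ'] (s : ι → ℝ) (s' : ι' → ℝ) (x : τ → ι → ℝ) (ξ : τ' → ι' → ℝ) (a b : τ → V)
  (c : τ → (Fin p → ℝ) →ₗ[ℝ] V) (sl e : τ' → ℝ) (B : τ' → (Fin p → ℝ) →ₗ[ℝ] ℝ) (w : V)
  (η : ℝ) (κ : Fin p → ℝ) (I : Fin (p + 2) → ι ⊕ ι'),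
  (∑ r, (if (I r).isRight = true then
    mu p (sN s s' ∘ I) r * (1 + ∑ q, κ q * Yl p (sN s s' (I r)) q) else 0) ≠ 0) →
  ∀ᶠ L in atTop,
    SepT p (sN s s') (xN p s' x ξ κ L) (aN a sl e L) (bN b sl w η) (cN c B sl κ L) I

/-- BDI (short-medium, needs LVL). Different order types: for `t.1 ≠ t'.1` an old tuple, otherwise a
new tuple, for which `∑ mu r * x r = ∑ mu r * ξ r`. -/
def BDI_stmt : Prop := ∀ (p : ℕ) (ι ι' τ τ' : Type) (s : ι → ℝ) (s' : ι' → ℝ) (x : τ → ι → ℝ)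
  (ξ : τ' → ι' → ℝ), Function.Injective s' → (∀ i, ell p (s' i) ≠ 0) → Dist p s x → Dist p s' ξ →
  ∀ (κ : Fin p → ℝ) (L : ℝ), Dist p (sN s s') (xN p s' x ξ κ L)

/-- BLK (short-medium; from LOC, KAP, BOO, BNN, BMX, BDI). The block. LOC with `Z = range s`; `η` small by
BOO for the finitely many old tuples; `κ₀` by BNN for the finitely many new tuples, `κ` by KAP for
`ι ⊕ ι'`, `N i = (i.isRight = true)`; `L` large by BNN and BMX. An injective tuple is old (all `isLeft`),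
new, or mixed. (H): `ρ' (v, y) = ρ v + η y`, `w' = (w, 0)`. -/
def BLK_stmt : Prop := ∀ (p m : ℕ) (V ι τ : Type) [AddCommGroup V] [Module ℝ V] [Finite ι]
  [Finite τ], 1 ≤ m → GoodH p V ι τ →
  GoodH p (V × ℝ) (ι ⊕ (Fin (p + 2) × Fin m)) (τ × (Fin (m ^ (p + 1)) × Fin m))

/-! ### Plates -/

/-- positions with plates -/
noncomputable def xP {ι τ : Type} {m : ℕ} (x : τ → ι → ℝ) (C : ℝ) (t : τ × Fin (m + 1)) :
    ι ⊕ Fin m → ℝ :=
  Sum.elim (fun i => x t.1 i) (fun i => C ^ ((i : ℕ) + 1) / ((t.2 : ℕ) - (i : ℕ) - 1 / 2))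

/-- slopes with plates -/
noncomputable def bP {V τ : Type} [AddCommGroup V] [Module ℝ V] {m : ℕ} (b : τ → V) (w : V)
    (η : ℝ) (t : τ × Fin (m + 1)) : V := b t.1 + (η * ((t.2 : ℕ) : ℝ)) • w

/-- POO (short-medium). Old tuples, `η` small (finitely many flats). -/
def POO_stmt : Prop := ∀ (p m : ℕ) (V ι τ : Type) [AddCommGroup V] [Module ℝ V] [Finite τ]
  (s : ι → ℝ) (s' : Fin m → ℝ) (x : τ → ι → ℝ) (a b : τ → V) (c : τ → (Fin p → ℝ) →ₗ[ℝ] V) (w : V)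
  (I : Fin (p + 2) → ι), SepT p s x a b c I →
  ∀ᶠ η in 𝓝[>] (0 : ℝ), ∀ C : ℝ, SepT p (sN s s') (xP x C) (fun t : τ × Fin (m + 1) => a t.1)
    (bP b w η) (fun t => c t.1) (fun r => Sum.inl (I r))

/-- POP (medium). Tuples with plates. Let `i` be the largest plate of the tuple, at the place `r₀`;
`mu r₀ ≠ 0` (`I` injective, so the nodes differ, `ell ≠ 0`). `f (x, v) = ± (ρ v - η (i + 1/2) x)`, the sign
that of `mu r₀`. At the plate `i`: `ρ (a t) + ρ (c t Y) + η C^(i+1)`; at a plate `i' < i`: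
`O(1) + η O(m) 2 C^(i'+1)`; at an old set `O(1)`. So `∑ mu r f r ≥ |mu r₀| η C^(i+1) - O(C^i) - O(1) > 0` for
large `C` (`C^i ≥ 1` absorbs the constants). -/
def POP_stmt : Prop := ∀ (p m : ℕ) (V ι τ : Type) [AddCommGroup V] [Module ℝ V] [Finite τ]
  (s : ι → ℝ) (s' : Fin m → ℝ) (x : τ → ι → ℝ) (a b : τ → V) (c : τ → (Fin p → ℝ) →ₗ[ℝ] V)
  (ρ : V →ₗ[ℝ] ℝ) (w : V), (∀ t, ρ (b t) = 0) → ρ w = 1 → Function.Injective (sN s s') →
  (∀ i, ell p (sN s s' i) ≠ 0) → ∀ η : ℝ, 0 < η → ∀ I : Fin (p + 2) → ι ⊕ Fin m,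
  Function.Injective I → (∃ r, (I r).isRight = true) →
  ∀ᶠ C in atTop, SepT p (sN s s') (xP x C) (fun t : τ × Fin (m + 1) => a t.1)
    (bP b w η) (fun t => c t.1) I

/-- PDI (medium). Different order types: for `t.1 ≠ t'.1` an old tuple; otherwise, say
`t.2 < t'.2`, the tuple of the `p + 1` old sets `J` and the plate `i = t.2`: its position is
`-2 C^(i+1)` in `t` and `≥ C^(i+1) / (m + 1)` in `t'`, so for large `C` the term of the plate dominates
both sums and the signs differ. -/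
def PDI_stmt : Prop := ∀ (p m : ℕ) (ι τ : Type) [Finite τ] (s : ι → ℝ) (s' : Fin m → ℝ)
  (x : τ → ι → ℝ) (J : Fin (p + 1) → ι), Function.Injective J → Function.Injective (sN s s') →
  (∀ i, ell p (sN s s' i) ≠ 0) → Dist p s x →
  ∀ᶠ C in atTop, Dist p (sN s s') (xP (m := m) x C)

/-- PLT (short-medium; from POO, POP, PDI). The plates; `s'` = large numbers. -/
def PLT_stmt : Prop := ∀ (p m : ℕ) (V ι τ : Type) [AddCommGroup V] [Module ℝ V] [Finite ι]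
  [Finite τ] (J : Fin (p + 1) → ι), Function.Injective J → GoodH p V ι τ →
  Good0 p V (ι ⊕ Fin m) (τ × Fin (m + 1))

/-- CHN (short-medium; from BLK, EQV, INI). Induction on `c`. -/
def CHN_stmt : Prop := ∀ p m c : ℕ, 1 ≤ m →
  GoodH p (Fin (c + 1) → ℝ) (Fin (p + 1 + (p + 2) * m * c)) (Fin (m ^ ((p + 2) * c)))

/-- EDD (short; from CHN, PLT, EQV). -/
def EDD_stmt : Prop := ∀ p m m' c : ℕ, 1 ≤ m →
  Good0 p (Fin (c + 1) → ℝ) (Fin (p + 1 + (p + 2) * m * c + m'))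
    (Fin (m ^ ((p + 2) * c) * (m' + 1)))

end Pool.Agent.GF
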