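import Pool.Agent.helper59.GF.Spec

set_option autoImplicit false

namespace Pool.Agent.GF

open Filter Topology

theorem BLK_min {α : Type} [Finite α] (k : α → ℝ) (hk : ∀ a, 0 < k a) :
    ∃ κ₀ : ℝ, 0 < κ₀ ∧ ∀ a, κ₀ ≤ k a := by
  rcases isEmpty_or_nonempty α with h | h
  · exact ⟨1, one_pos, fun a => (h.false a).elim⟩
  · obtain ⟨a, ha⟩ := Finite.exists_min k
    exact ⟨k a, hk a, ha⟩

theorem BLK (hLOC : LOC_stmt) (hKAP : KAP_stmt) (hBOO : BOO_stmt) (hBNN : BNN_stmt)
    (hBMX : BMX_stmt) (hBDI : BDI_stmt) : BLK_stmt := by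
  intro p m V ι τ _ _ _ _ hm hG
  obtain ⟨s, x, a, b, c, ρ, w, hb, hw, hs, hell, hsep, hdist⟩ := hG
  obtain ⟨s', ξ, sl, e, B, hs', hs2, hloc, hd'⟩ :=
    hLOC p m hm (Set.range s) (Set.finite_range s)
  have hell' : ∀ i, ell p (s' i) ≠ 0 := fun i => (hs2 i).2
  have hsN : Function.Injective (sN s s') := by
    rintro (i | i) (j | j) hij
    · exact congrArg Sum.inl (hs hij)
    · exact absurd ⟨i, hij⟩ (hs2 j).1
    · exact absurd ⟨j, hij.symm⟩ (hs2 i).1
    · exact congrArg Sum.inr (hs' hij)
  have hellN : ∀ i, ell p (sN s s' i) ≠ 0 := by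
    rintro (i | i)
    · exact hell i
    · exact hell' i
  -- the choice of `η`
  have hη : ∀ᶠ η in 𝓝[>] (0 : ℝ), ∀ I : Fin (p + 2) → ι, Function.Injective I →
      ∀ (κ : Fin p → ℝ) (L : ℝ), SepT p (sN s s') (xN p s' x ξ κ L) (aN a sl e L)
        (bN b sl w η) (cN c B sl κ L) (fun r => Sum.inl (I r)) := by
    rw [eventually_all]
    intro I
    by_cases hI : Function.Injective I
    · filter_upwards [hBOO p V ι _ τ _ s s' x ξ a b c sl e B w I (hsep I hI)] with η h _
      exact h
    · exact Eventually.of_forall fun η h => absurd h hI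
  obtain ⟨η, hη1, hη0⟩ := (hη.and self_mem_nhdsWithin).exists
  have hη0' : 0 < η := hη0
  -- the bound for `κ`
  have hκ : ∃ κ₀ : ℝ, 0 < κ₀ ∧ ∀ I : Fin (p + 2) → Fin (p + 2) × Fin m,
      Function.Injective I → ∀ κ : Fin p → ℝ, (∀ q, |κ q| < κ₀) → ∀ᶠ L in atTop,
      SepT p (sN s s') (xN p s' x ξ κ L) (aN a sl e L) (bN b sl w η) (cN c B sl κ L)
        (fun r => Sum.inr (I r)) := by
    choose k hk0 hk using fun I : {I : Fin (p + 2) → Fin (p + 2) × Fin m //
        Function.Injective I} => hBNN p V ι _ τ _ s s' x ξ a b c sl e B ρ w hb hw hs' hell'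
          I.1 I.2 (hloc I.1 I.2) η hη0'
    obtain ⟨κ₀, h0, h1⟩ := BLK_min k hk0
    refine ⟨κ₀, h0, fun I hI κ hκ => ?_⟩
    exact hk ⟨I, hI⟩ κ (fun q => (hκ q).trans_le (h1 _))
  obtain ⟨κ₀, hκ0, hκ1⟩ := hκ
  obtain ⟨κ, hκ2, hκ3⟩ := hKAP p (ι ⊕ (Fin (p + 2) × Fin m)) (sN s s') hsN hellN
    (fun i => i.isRight = true) κ₀ hκ0
  -- the choice of `L`
  have hL : ∀ᶠ L in atTop, ∀ I : Fin (p + 2) → ι ⊕ (Fin (p + 2) × Fin m),
      Function.Injective I → SepT p (sN s s') (xN p s' x ξ κ L) (aN a sl e L) (bN b sl w η)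
        (cN c B sl κ L) I := by
    rw [eventually_all]
    intro I
    by_cases hI : Function.Injective I
    · by_cases h1 : ∃ r, (I r).isRight = true
      · by_cases h2 : ∃ r, ¬ (I r).isRight = true
        · filter_upwards [hBMX p V ι _ τ _ s s' x ξ a b c sl e B w η κ I
            (hκ3 I hI h1 h2)] with L h _
          exact h
        · have h3 : ∀ r, ∃ i, I r = Sum.inr i := by
            intro r
            have h4 : (I r).isRight = true := by
              by_contra h5
              exact h2 ⟨r, h5⟩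
            exact Sum.isRight_iff.mp h4
          choose I' hI' using h3
          have h4 : I = fun r => Sum.inr (I' r) := funext hI'
          have h5 : Function.Injective I' := by
            intro r r' h
            apply hI
            rw [hI' r, hI' r', h]
          rw [h4]
          filter_upwards [hκ1 I' h5 κ hκ2] with L h _
          exact h
      · have h3 : ∀ r, ∃ i, I r = Sum.inl i := by
          intro r
          have h4 : ¬ (I r).isRight = true := fun h => h1 ⟨r, h⟩
          rcases hr : I r with i | i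
          · exact ⟨i, rfl⟩
          · rw [hr] at h4
            exact absurd rfl h4
        choose I' hI' using h3
        have h4 : I = fun r => Sum.inl (I' r) := funext hI'
        have h5 : Function.Injective I' := by
          intro r r' h
          apply hI
          rw [hI' r, hI' r', h]
        rw [h4]
        exact Eventually.of_forall fun L _ => hη1 I' h5 κ L
    · exact Eventually.of_forall fun L h => absurd h hI
  obtain ⟨L, hL⟩ := hL.exists
  refine ⟨sN s s', xN p s' x ξ κ L, aN a sl e L, bN b sl w η, cN c B sl κ L,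
    ρ ∘ₗ LinearMap.fst ℝ V ℝ + η • LinearMap.snd ℝ V ℝ, (w, 0), ?_, ?_, hsN, hellN, hL,
    hBDI p ι _ τ _ s s' x ξ hs' hell' hdist hd' κ L⟩
  · intro t
    simp [bN, hb, hw]
  · simp [hw]

end Pool.Agent.GF
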