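import Pool.Agent.helper59.GF.Spec

set_option autoImplicit false

namespace Pool.Agent.GF

theorem CHN (hBLK : BLK_stmt) (hEQV : EQV_stmt) (hINI : INI_stmt) : CHN_stmt := by
  intro p m c hm
  induction c with
  | zero =>
    have h := hINI p
    have e2 : Fin (p + 1 + (p + 2) * m * 0) ≃ Fin (p + 1) := finCongr (by simp)
    have e3 : Fin (m ^ ((p + 2) * 0)) ≃ Fin 1 := finCongr (by simp)
    exact (hEQV p (Fin 1 → ℝ) (Fin (0 + 1) → ℝ) _ _ _ _ (LinearEquiv.refl ℝ _) e2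
      e3.toEmbedding).1 h
  | succ c ih =>
    have h := hBLK p m _ _ _ hm ih
    have e1 : ((Fin (c + 1) → ℝ) × ℝ) ≃ₗ[ℝ] (Fin (c + 1 + 1) → ℝ) :=
      LinearEquiv.ofFinrankEq _ _ (by simp)
    have e2 : Fin (p + 1 + (p + 2) * m * (c + 1)) ≃
        (Fin (p + 1 + (p + 2) * m * c) ⊕ (Fin (p + 2) × Fin m)) :=
      (Fintype.equivFinOfCardEq (by simp; ring)).symm
    have e3 : Fin (m ^ ((p + 2) * (c + 1))) ≃
        (Fin (m ^ ((p + 2) * c)) × (Fin (m ^ (p + 1)) × Fin m)) :=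
      (Fintype.equivFinOfCardEq (by simp; ring)).symm
    exact (hEQV p _ _ _ _ _ _ e1 e2 e3.toEmbedding).1 h

end Pool.Agent.GF
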