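import Pool.Agent.helper59.GF.Spec

set_option autoImplicit false

namespace Pool.Agent.GF

theorem EDD (hCHN : CHN_stmt) (hPLT : PLT_stmt) (hEQV : EQV_stmt) : EDD_stmt := by
  intro p m m' c hm
  have h := hCHN p m c hm
  have h1 := hPLT p m' _ _ _ (Fin.castLE (show p + 1 ≤ p + 1 + (p + 2) * m * c by omega))
    (Fin.castLE_injective _) h
  have e2 : Fin (p + 1 + (p + 2) * m * c + m') ≃
      (Fin (p + 1 + (p + 2) * m * c) ⊕ Fin m') :=
    (Fintype.equivFinOfCardEq (by simp)).symm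
  have e3 : Fin (m ^ ((p + 2) * c) * (m' + 1)) ≃
      (Fin (m ^ ((p + 2) * c)) × Fin (m' + 1)) :=
    (Fintype.equivFinOfCardEq (by simp)).symm
  exact (hEQV p _ _ _ _ _ _ (LinearEquiv.refl ℝ _) e2 e3.toEmbedding).2 h1

end Pool.Agent.GF
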