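import Pool.Agent.helper59.GF.Spec

set_option autoImplicit false

namespace Pool.Agent.GF

theorem EQV_sep {V W ι ι' τ τ' : Type} [AddCommGroup V] [Module ℝ V]
    [AddCommGroup W] [Module ℝ W] (e : V ≃ₗ[ℝ] W) (ei : ι' ≃ ι) (et : τ' ↪ τ) {p : ℕ}
    {s : ι → ℝ} {x : τ → ι → ℝ} {a b : τ → V} {c : τ → (Fin p → ℝ) →ₗ[ℝ] V}
    {I : Fin (p + 2) → ι'} (h : SepT p s x a b c (ei ∘ I)) :
    SepT p (s ∘ ei) (fun t i => x (et t) (ei i)) (fun t => e (a (et t)))
      (fun t => e (b (et t))) (fun t => e.toLinearMap ∘ₗ c (et t)) I := by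
  obtain ⟨f, hf⟩ := h
  refine ⟨f ∘ₗ LinearMap.prodMap LinearMap.id e.symm.toLinearMap, fun t => ?_⟩
  have h1 := hf (fun r => et (t r))
  have h2 : ∀ r, (f ∘ₗ LinearMap.prodMap LinearMap.id e.symm.toLinearMap)
      (x (et (t r)) (ei (I r)), e (a (et (t r))) + x (et (t r)) (ei (I r)) • e (b (et (t r))) +
        (e.toLinearMap ∘ₗ c (et (t r))) (Yl p ((s ∘ ei) (I r)))) =
      f (x (et (t r)) ((ei ∘ I) r), a (et (t r)) + x (et (t r)) ((ei ∘ I) r) • b (et (t r)) +
        c (et (t r)) (Yl p (s ((ei ∘ I) r)))) := by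
    intro r
    simp only [LinearMap.comp_apply, LinearMap.prodMap_apply, LinearMap.id_apply,
      LinearEquiv.coe_coe, map_add, map_smul, LinearEquiv.symm_apply_apply, Function.comp]
  simp only [h2]
  exact h1

theorem EQV_dist {ι ι' τ τ' : Type} (ei : ι' ≃ ι) (et : τ' ↪ τ) {p : ℕ}
    {s : ι → ℝ} {x : τ → ι → ℝ} (h : Dist p s x) :
    Dist p (s ∘ ei) (fun t i => x (et t) (ei i)) := by
  intro t t' htt
  obtain ⟨I, hI, h1⟩ := h (et t) (et t') (fun h => htt (et.injective h))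
  refine ⟨ei.symm ∘ I, ei.symm.injective.comp hI, ?_⟩
  have h2 : (s ∘ ei) ∘ (ei.symm ∘ I) = s ∘ I := by
    funext r
    simp
  simp only [h2, Function.comp, Equiv.apply_symm_apply] at h1 ⊢
  exact h1

theorem EQV : EQV_stmt := by
  intro p V W ι ι' τ τ' _ _ _ _ e ei et
  constructor
  · rintro ⟨s, x, a, b, c, ρ, w, hb, hw, hs, hell, hsep, hdist⟩
    refine ⟨s ∘ ei, fun t i => x (et t) (ei i), fun t => e (a (et t)), fun t => e (b (et t)),
      fun t => e.toLinearMap ∘ₗ c (et t), ρ ∘ₗ e.symm.toLinearMap, e w, ?_, ?_,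
      hs.comp ei.injective, fun i => hell _, ?_, EQV_dist ei et hdist⟩
    · intro t
      simpa using hb (et t)
    · simpa using hw
    · intro I hI
      exact EQV_sep e ei et (hsep _ (ei.injective.comp hI))
  · rintro ⟨s, x, a, b, c, hs, hell, hsep, hdist⟩
    refine ⟨s ∘ ei, fun t i => x (et t) (ei i), fun t => e (a (et t)), fun t => e (b (et t)),
      fun t => e.toLinearMap ∘ₗ c (et t), hs.comp ei.injective, fun i => hell _, ?_,
      EQV_dist ei et hdist⟩
    intro I hI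
    exact EQV_sep e ei et (hsep _ (ei.injective.comp hI))

end Pool.Agent.GF
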