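import Pool.Agent.helper59.GF.Spec

set_option autoImplicit false

namespace Pool.Agent.GF

theorem INI : INI_stmt := by
  intro p
  refine ⟨fun i => -(((i : ℕ) : ℝ) + 1), fun _ _ => 0, fun _ => 0, fun _ => 0, fun _ => 0,
    LinearMap.proj 0, fun _ => 1, fun t => by simp, by simp, ?_, ?_, ?_, ?_⟩
  · intro i j hij
    simp only [neg_inj, add_left_inj, Nat.cast_inj] at hij
    exact Fin.ext hij
  · intro i
    unfold ell
    rw [Finset.prod_ne_zero_iff]
    intro q _
    have h1 : (0 : ℝ) ≤ ((i : ℕ) : ℝ) := Nat.cast_nonneg _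
    have h2 : (0 : ℝ) ≤ ((q : ℕ) : ℝ) := Nat.cast_nonneg _
    intro h3
    linarith
  · intro I hI
    exfalso
    have h1 := Fintype.card_le_of_injective I hI
    simp at h1
  · intro t t' htt
    exact absurd (Subsingleton.elim t t') htt

end Pool.Agent.GF
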