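import Pool.Agent.helper59.GF.Spec

set_option autoImplicit false

namespace Pool.Agent.GF

open Filter Topology

theorem LOC_perm {ι τ : Type} (hPRM : PRM_stmt) (p : ℕ) (s : ι → ℝ) (ξ : τ → ι → ℝ) (sl e : τ → ℝ)
    (B : τ → (Fin p → ℝ) →ₗ[ℝ] ℝ) (I : Fin (p + 2) → ι) (σ : Equiv.Perm (Fin (p + 2)))
    (h : LocSep p s ξ sl e B (I ∘ σ)) : LocSep p s ξ sl e B I := by
  obtain ⟨α, β, γ, h⟩ := h
  refine ⟨α, β, γ, fun t => ?_⟩
  have h1 := h (t ∘ σ)
  have h2 : ∀ r, mu p (s ∘ (I ∘ σ)) r = mu p (s ∘ I) (σ r) := fun r => hPRM p (s ∘ I) σ r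
  have h3 := Equiv.sum_comp σ (fun r => mu p (s ∘ I) r *
    (α * ξ (t r) (I r) + β * sl (t r) +
      γ * (sl (t r) * ξ (t r) (I r) + B (t r) (Yl p (s (I r))) + e (t r))))
  rw [← h3]
  simp only [h2] at h1
  exact h1

theorem LOC_mono {T : ℕ → ℝ} {N : ℕ} (h : ∀ n, n + 1 < N → T n < T (n + 1)) :
    ∀ n n' : ℕ, n < n' → n' < N → T n < T n' := by
  intro n n' hn
  induction n', hn using Nat.le_induction with
  | base => intro h1; exact h n h1
  | succ k hk ih =>
    intro h1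
    exact (ih (by omega)).trans (h k h1)

theorem LOC (hLAM : LAM_stmt) (hTIM : TIM_stmt) (hTRV : TRV_stmt) (hAFB : AFB_stmt)
    (hLTR : LTR_stmt) (hLNT : LNT_stmt) (hLDI : LDI_stmt) (hNDE : NDE_stmt) (hPRM : PRM_stmt) :
    LOC_stmt := by
  intro p m hm Z hZ
  obtain ⟨hmu, hlam, hsum⟩ := hLAM p
  obtain ⟨X, dig, T, hT⟩ := hTIM p m hm hlam
  have hX := hT.1
  have hinc := LOC_mono hT.2.2.2.1
  have e1 := hTRV p m X dig T hT hsum
  have e2 : ∀ᶠ ε in 𝓝[>] (0 : ℝ), ∀ n n' : Fin (m ^ (p + 1)), (n : ℕ) < n' →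
      ε * m < T n' - T n := by
    rw [eventually_all]
    intro n
    rw [eventually_all]
    intro n'
    by_cases hn : (n : ℕ) < n'
    · have h1 : 0 < T n' - T n := sub_pos.mpr (hinc n n' hn n'.2)
      have h2 : Tendsto (fun ε : ℝ => ε * (m : ℝ)) (𝓝[>] 0) (𝓝 (0 * (m : ℝ))) := by
        apply Tendsto.mono_left _ nhdsWithin_le_nhds
        exact (continuous_id.mul continuous_const).tendsto 0
      rw [zero_mul] at h2
      filter_upwards [h2.eventually_lt_const h1] with ε hε _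
      exact hε
    · exact Eventually.of_forall fun ε h => absurd h hn
  obtain ⟨ε, ⟨hε1, hε2⟩, hε0⟩ := ((e1.and e2).and self_mem_nhdsWithin).exists
  have hε0' : 0 < ε := hε0
  have hε3 : ∀ n n' : ℕ, n < n' → n' < m ^ (p + 1) → ε * m < T n' - T n := by
    intro n n' h1 h2
    exact hε2 ⟨n, h1.trans h2⟩ ⟨n', h2⟩ h1
  choose B e hB using fun t : Fin (m ^ (p + 1)) × Fin m =>
    hAFB p (fun q => gm T (fun i => X q (dig i q)) ε t.1 t.2)
  have hAff : IsAff X dig T ε B e := fun t => hB t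
  have d1 : ∀ᶠ δ in 𝓝[>] (0 : ℝ), ∀ I : Fin (p + 2) → Fin (p + 2) × Fin m,
      Function.Injective I → LocSep p (nd p m δ) (xiL X T ε) (slL T ε) e B I := by
    rw [eventually_all]
    intro I
    by_cases hI : Function.Injective I
    · by_cases hc : Function.Injective (fun r => (I r).1)
      · set σ : Equiv.Perm (Fin (p + 2)) :=
          Equiv.ofBijective _ (Finite.injective_iff_bijective.mp hc) with hσ
        have hσ1 : ∀ r, σ r = (I r).1 := fun r => rfl
        have h1 := hLTR p m X dig T ε hT hε0' hε1 B e hAff (I ∘ σ.symm) (fun r => by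
          have h2 := hσ1 (σ.symm r)
          rw [Equiv.apply_symm_apply] at h2
          exact h2.symm)
        filter_upwards [h1] with δ hδ _
        exact LOC_perm hPRM p _ _ _ _ _ I σ.symm hδ
      · filter_upwards [hLNT p m X T ε hX hε0' B e I hI hc] with δ hδ _
        exact hδ
    · exact Eventually.of_forall fun δ h => absurd h hI
  have d2 := hLDI p m X dig T ε hT hε0' hε3
  have d3 := hNDE p m Z hZ
  obtain ⟨δ, ⟨h1, h2⟩, h3⟩ := ((d1.and d2).and d3).exists
  exact ⟨nd p m δ, xiL X T ε, slL T ε, e, B, h3.1, h3.2, h1, h2⟩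

end Pool.Agent.GF
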