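import Pool.Agent.helper59.GF.Spec

set_option autoImplicit false

namespace Pool.Agent.GF

open Filter Topology

theorem LTR (hTRC : TRC_stmt) (hLAM : LAM_stmt) : LTR_stmt := by
  intro p m X dig T ε hT hε hK B e hAff I hI
  obtain ⟨hmu, -, -⟩ := hLAM p
  obtain ⟨n₀, hn₀, hdig⟩ := hT.2.1 (fun q => (I q.castSucc).2)
  obtain ⟨K, hK1, hK2⟩ := hK n₀ (I (Fin.last (p + 1))).2 hn₀ (I (Fin.last (p + 1))).2.2
  obtain ⟨α, hα⟩ : ∃ α : ℝ, α = T n₀ + ε * (((I (Fin.last (p + 1))).2 : ℕ) + 1 / 2) := ⟨_, rfl⟩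
  obtain ⟨β, hβ⟩ : ∃ β : ℝ, β = T n₀ / 2 := ⟨_, rfl⟩
  rw [← hα, ← hβ] at hK1 hK2
  obtain ⟨hc1, hc2⟩ := hTRC p m I hI
  -- the values
  have hS : ∀ t : Fin (p + 2) → Fin (m ^ (p + 1)) × Fin m, 0 < ∑ r, mu p (cen p) r *
      (α * xiL X T ε (t r) (I r) + β * slL T ε (t r) +
        (-1) * (slL T ε (t r) * xiL X T ε (t r) (I r) + B (t r) (Yl p (cen p r)) + e (t r))) := by
    intro t
    rw [Fin.sum_univ_castSucc]
    -- static sets
    have h1 : ∀ q : Fin (p + 1), mu p (cen p) (Fin.last (p + 1)) * (lam p q * K q) ≤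
        mu p (cen p) q.castSucc *
      (α * xiL X T ε (t q.castSucc) (I q.castSucc) + β * slL T ε (t q.castSucc) +
        (-1) * (slL T ε (t q.castSucc) * xiL X T ε (t q.castSucc) (I q.castSucc) +
          B (t q.castSucc) (Yl p (cen p q.castSucc)) + e (t q.castSucc))) := by
      intro q
      have e1 : xiL X T ε (t q.castSucc) (I q.castSucc) = X q (dig n₀ q) := by
        have e2 : ((I q.castSucc).1 : ℕ) = (q : ℕ) := by rw [hI]; rfl
        unfold xiL
        have e3 : ((I q.castSucc).1 : ℕ) < p + 1 := by rw [e2]; exact q.2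
        rw [dif_pos e3, hdig]
        have e4 : (⟨((I q.castSucc).1 : ℕ), e3⟩ : Fin (p + 1)) = q := Fin.ext e2
        rw [e4]
      have e5 := (hAff (t q.castSucc)).1 q
      have e6 := hK1 q (t q.castSucc).1 (t q.castSucc).2 (t q.castSucc).1.2 (t q.castSucc).2.2
      have e7 : mu p (cen p) q.castSucc = -(lam p q * mu p (cen p) (Fin.last (p + 1))) := by
        unfold lam
        field_simp
      have e8 : 0 < lam p q := (hLAM p).2.1 q
      rw [e1]
      have e9 : α * X q (dig n₀ q) + β * slL T ε (t q.castSucc) +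
        (-1) * (slL T ε (t q.castSucc) * X q (dig n₀ q) +
          B (t q.castSucc) (Yl p (cen p q.castSucc)) + e (t q.castSucc)) ≤ -K q := by
        unfold slL
        linarith
      rw [e7]
      have e10 : 0 < lam p q * mu p (cen p) (Fin.last (p + 1)) := mul_pos e8 hmu
      nlinarith
    have h2 := Finset.sum_le_sum (fun q (_ : q ∈ (Finset.univ : Finset (Fin (p + 1)))) => h1 q)
    rw [← Finset.mul_sum] at h2
    -- the moving set
    have h3 : -(∑ q, lam p q * K q - ε ^ 2 / 4) ≤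
        α * xiL X T ε (t (Fin.last (p + 1))) (I (Fin.last (p + 1))) +
        β * slL T ε (t (Fin.last (p + 1))) +
        (-1) * (slL T ε (t (Fin.last (p + 1))) *
          xiL X T ε (t (Fin.last (p + 1))) (I (Fin.last (p + 1))) +
          B (t (Fin.last (p + 1))) (Yl p (cen p (Fin.last (p + 1)))) +
          e (t (Fin.last (p + 1)))) := by
      have e1 : xiL X T ε (t (Fin.last (p + 1))) (I (Fin.last (p + 1))) =
          -al T ε (t (Fin.last (p + 1))).1 (t (Fin.last (p + 1))).2 +
            ε * (((I (Fin.last (p + 1))).2 : ℕ) + 1 / 2) := by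
        unfold xiL
        have e2 : ¬ ((I (Fin.last (p + 1))).1 : ℕ) < p + 1 := by
          rw [hI]
          simp
        rw [dif_neg e2]
      have e5 := (hAff (t (Fin.last (p + 1)))).2
      have e6 := hK2 (t (Fin.last (p + 1))).1 (t (Fin.last (p + 1))).2
        (t (Fin.last (p + 1))).1.2 (t (Fin.last (p + 1))).2.2
      rw [← e1] at e6
      have e7 : slL T ε (t (Fin.last (p + 1))) =
        al T ε (t (Fin.last (p + 1))).1 (t (Fin.last (p + 1))).2 := rfl
      rw [e7]
      linarith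
    have h4 := mul_le_mul_of_nonneg_left h3 hmu.le
    have h5 : 0 < mu p (cen p) (Fin.last (p + 1)) * (ε ^ 2 / 4) := by positivity
    have h6 : mu p (cen p) (Fin.last (p + 1)) * -(∑ q, lam p q * K q - ε ^ 2 / 4) =
      mu p (cen p) (Fin.last (p + 1)) * (ε ^ 2 / 4) -
        mu p (cen p) (Fin.last (p + 1)) * ∑ q, lam p q * K q := by ring
    rw [h6] at h4
    linarith
  -- continuity
  have hlim : ∀ᶠ δ in 𝓝[>] (0 : ℝ), ∀ t : Fin (p + 2) → Fin (m ^ (p + 1)) × Fin m,
      0 < ∑ r, mu p (nd p m δ ∘ I) r *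
      (α * xiL X T ε (t r) (I r) + β * slL T ε (t r) +
        (-1) * (slL T ε (t r) * xiL X T ε (t r) (I r) +
          B (t r) (Yl p (nd p m δ (I r))) + e (t r))) := by
    rw [eventually_all]
    intro t
    have h1 : Tendsto (fun δ => ∑ r, mu p (nd p m δ ∘ I) r *
      (α * xiL X T ε (t r) (I r) + β * slL T ε (t r) +
        (-1) * (slL T ε (t r) * xiL X T ε (t r) (I r) +
          B (t r) (Yl p (nd p m δ (I r))) + e (t r)))) (𝓝[>] 0)
        (𝓝 (∑ r, mu p (cen p) r *
      (α * xiL X T ε (t r) (I r) + β * slL T ε (t r) +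
        (-1) * (slL T ε (t r) * xiL X T ε (t r) (I r) +
          B (t r) (Yl p (cen p r)) + e (t r))))) := by
      apply tendsto_finsetSum
      intro r _
      apply (hc1 r).mul
      have h2 : Tendsto (fun δ => Yl p (nd p m δ (I r))) (𝓝[>] 0) (𝓝 (Yl p (cen p r))) := by
        rw [tendsto_pi_nhds]
        intro q
        exact hc2 r q
      have h3 : Tendsto (fun δ => B (t r) (Yl p (nd p m δ (I r)))) (𝓝[>] 0)
          (𝓝 (B (t r) (Yl p (cen p r)))) :=
        ((B (t r)).continuous_of_finiteDimensional.tendsto _).comp h2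
      exact ((((tendsto_const_nhds).add h3).add tendsto_const_nhds).const_mul _).const_add _
    exact h1.eventually_const_lt (hS t)
  filter_upwards [hlim] with δ hδ
  exact ⟨α, β, -1, hδ⟩

end Pool.Agent.GF
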