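import Pool.Agent.helper59.GF.Spec

set_option autoImplicit false

namespace Pool.Agent.GF

open Filter Topology

theorem PDI_mu {ι : Type} {p : ℕ} {s : ι → ℝ} (hs : Function.Injective s)
    (hell : ∀ i, ell p (s i) ≠ 0) {I : Fin (p + 2) → ι} (hI : Function.Injective I)
    (r : Fin (p + 2)) : mu p (s ∘ I) r ≠ 0 := by
  unfold mu
  apply div_ne_zero (hell _)
  rw [Finset.prod_ne_zero_iff]
  intro r' hr'
  rw [sub_ne_zero]
  intro h
  exact (Finset.mem_erase.mp hr').1 (hI (hs h)).symm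

/-- the tuple of the sets `J` and the plate `i` -/
def PDI_I {ι : Type} {p m : ℕ} (J : Fin (p + 1) → ι) (i : Fin m) : Fin (p + 2) → ι ⊕ Fin m :=
  Fin.cons (Sum.inr i) (fun q => Sum.inl (J q))

theorem PDI_inj {ι : Type} {p m : ℕ} {J : Fin (p + 1) → ι} (hJ : Function.Injective J)
    (i : Fin m) : Function.Injective (PDI_I J i) := by
  unfold PDI_I
  rw [Fin.cons_injective_iff]
  constructor
  · rintro ⟨q, hq⟩
    exact absurd hq (by simp)
  · intro q q' h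
    exact hJ (Sum.inl_injective h)

/-- signs -/
theorem PDI_sign {M A A' w w' W : ℝ} (hw : |w| ≤ W) (hw' : |w'| ≤ W)
    (hA : W < |M| * (-A)) (hA' : W < |M| * A') (hM : M ≠ 0) :
    (M * A + w) * (M * A' + w') < 0 := by
  have h1 := abs_le.mp hw
  have h2 := abs_le.mp hw'
  rcases lt_or_gt_of_ne hM with h | h
  · rw [abs_of_neg h] at hA hA'
    apply mul_neg_of_pos_of_neg
    · nlinarith [h1.1, h1.2]
    · nlinarith [h2.1, h2.2]
  · rw [abs_of_pos h] at hA hA'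
    apply mul_neg_of_neg_of_pos
    · nlinarith [h1.1, h1.2]
    · nlinarith [h2.1, h2.2]

theorem PDI : PDI_stmt := by
  intro p m ι τ _ s s' x J hJ hs hell hdist
  -- bounds
  obtain ⟨W, hW⟩ : ∃ W : ℝ, ∀ (t : τ) (i : Fin m),
      |∑ q : Fin (p + 1), mu p (sN s s' ∘ PDI_I J i) q.succ * x t (J q)| ≤ W := by
    obtain ⟨W, hW⟩ := (Set.finite_range fun a : τ × Fin m =>
      |∑ q : Fin (p + 1), mu p (sN s s' ∘ PDI_I J a.2) q.succ * x a.1 (J q)|).bddAbove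
    exact ⟨W, fun t i => hW ⟨(t, i), rfl⟩⟩
  have hM : ∀ i : Fin m, mu p (sN s s' ∘ PDI_I J i) 0 ≠ 0 := fun i =>
    PDI_mu hs hell (PDI_inj hJ i) 0
  have hm0 : (0 : ℝ) ≤ m := Nat.cast_nonneg m
  have hbig : ∀ᶠ C : ℝ in atTop, ∀ i : Fin m,
      W * (m + 1) / |mu p (sN s s' ∘ PDI_I J i) 0| < C := by
    rw [eventually_all]
    intro i
    exact eventually_gt_atTop _
  filter_upwards [eventually_ge_atTop (1 : ℝ), hbig] with C hC1 hC2
  -- the key case
  have key : ∀ (t : τ) (β β' : Fin (m + 1)), β < β' → ∃ I : Fin (p + 2) → ι ⊕ Fin m,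
      Function.Injective I ∧
      (∑ r, mu p (sN s s' ∘ I) r * xP x C (t, β) (I r)) *
        (∑ r, mu p (sN s s' ∘ I) r * xP x C (t, β') (I r)) < 0 := by
    intro t β β' hβ
    have hβm : (β : ℕ) < m := by
      have h1 : (β : ℕ) < β' := hβ
      have h2 := β'.2
      omega
    set i : Fin m := ⟨β, hβm⟩ with hi
    refine ⟨PDI_I J i, PDI_inj hJ i, ?_⟩
    rw [Fin.sum_univ_succ (f := fun r => mu p (sN s s' ∘ PDI_I J i) r *
      xP x C (t, β) (PDI_I J i r)), Fin.sum_univ_succ (f := fun r =>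
      mu p (sN s s' ∘ PDI_I J i) r * xP x C (t, β') (PDI_I J i r))]
    have e1 : ∀ b : Fin (m + 1), xP x C (t, b) (PDI_I J i 0) =
        C ^ ((i : ℕ) + 1) / ((b : ℕ) - (i : ℕ) - 1 / 2) := fun b => rfl
    have e2 : ∀ (b : Fin (m + 1)) (q : Fin (p + 1)), xP x C (t, b) (PDI_I J i q.succ) =
        x t (J q) := fun b q => rfl
    simp only [e1, e2]
    have hmu := hC2 i
    have hMi := hM i
    have hMpos : 0 < |mu p (sN s s' ∘ PDI_I J i) 0| := abs_pos.mpr hMi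
    rw [div_lt_iff₀ hMpos] at hmu
    have hpow : C ≤ C ^ ((i : ℕ) + 1) := by
      calc C = C ^ 1 := (pow_one C).symm
        _ ≤ C ^ ((i : ℕ) + 1) := pow_le_pow_right₀ hC1 (by omega)
    have hpow0 : 0 < C ^ ((i : ℕ) + 1) := by positivity
    have h3 : W * (m + 1) < |mu p (sN s s' ∘ PDI_I J i) 0| * C ^ ((i : ℕ) + 1) := by
      have h4 : C * |mu p (sN s s' ∘ PDI_I J i) 0| ≤
          C ^ ((i : ℕ) + 1) * |mu p (sN s s' ∘ PDI_I J i) 0| :=
        mul_le_mul_of_nonneg_right hpow hMpos.le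
      linarith
    have hW0 : 0 ≤ W := (abs_nonneg _).trans (hW t i)
    apply PDI_sign (hW t i) (hW t i) _ _ hMi
    · have e3 : ((β : ℕ) : ℝ) - ((i : ℕ) : ℝ) - 1 / 2 = -(1 / 2) := by
        rw [hi]
        ring
      rw [e3]
      have e4 : -(C ^ ((i : ℕ) + 1) / -(1 / 2)) = 2 * C ^ ((i : ℕ) + 1) := by ring
      rw [e4]
      have h5 : W ≤ W * (m + 1) := by nlinarith
      have h6 : 0 < |mu p (sN s s' ∘ PDI_I J i) 0| * C ^ ((i : ℕ) + 1) := mul_pos hMpos hpow0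
      linarith
    · have h5 : ((i : ℕ) : ℝ) + 1 ≤ ((β' : ℕ) : ℝ) := by
        have h6 : (i : ℕ) + 1 ≤ β' := hβ
        exact_mod_cast h6
      have h6 : ((β' : ℕ) : ℝ) ≤ m := by exact_mod_cast Nat.lt_succ_iff.mp β'.2
      have h7 : (0 : ℝ) ≤ ((i : ℕ) : ℝ) := Nat.cast_nonneg _
      have h8 : 0 < ((β' : ℕ) : ℝ) - ((i : ℕ) : ℝ) - 1 / 2 := by linarith
      rw [mul_div_assoc', lt_div_iff₀ h8]
      have h9 : W * (((β' : ℕ) : ℝ) - ((i : ℕ) : ℝ) - 1 / 2) ≤ W * (m + 1) :=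
        mul_le_mul_of_nonneg_left (by linarith) hW0
      linarith
  rintro ⟨t, β⟩ ⟨t', β'⟩ htt
  by_cases ht : t = t'
  · subst ht
    have hβ : β ≠ β' := fun h => htt (by rw [h])
    rcases lt_or_gt_of_ne hβ with h | h
    · exact key t β β' h
    · obtain ⟨I, hI, h1⟩ := key t β' β h
      exact ⟨I, hI, by rw [mul_comm]; exact h1⟩
  · obtain ⟨I, hI, h1⟩ := hdist t t' ht
    exact ⟨fun r => Sum.inl (I r), Sum.inl_injective.comp hI, h1⟩

end Pool.Agent.GF
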