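import Pool.Agent.helper59.GF.Spec

set_option autoImplicit false

namespace Pool.Agent.GF

open Polynomial

/-- the roots of `ell` -/
noncomputable def PFR_m (p : ℕ) (q : Fin p) : ℝ := ((q : ℕ) : ℝ) + 1 / 2

theorem PFR_inj (p : ℕ) : Function.Injective (PFR_m p) := by
  intro q q' h
  unfold PFR_m at h
  have h1 : ((q : ℕ) : ℝ) = ((q' : ℕ) : ℝ) := by linarith
  exact Fin.ext (by exact_mod_cast h1)

theorem PFR_ell (p : ℕ) (s : ℝ) : ell p s = ∏ q : Fin p, (s - PFR_m p q) := by
  unfold ell PFR_m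
  apply Finset.prod_congr rfl
  intro q _
  ring

theorem PFR_Yl (p : ℕ) (s : ℝ) (hs : ell p s ≠ 0) (q : Fin p) :
    ell p s * Yl p s q = ∏ q' ∈ Finset.univ.erase q, (s - PFR_m p q') := by
  rw [PFR_ell] at hs ⊢
  have h1 := Finset.mul_prod_erase Finset.univ (fun q' => s - PFR_m p q') (Finset.mem_univ q)
  rw [← h1] at hs ⊢
  have h2 : s - PFR_m p q ≠ 0 := left_ne_zero_of_mul hs
  unfold Yl
  have h3 : s - ((q : ℕ) : ℝ) - 1 / 2 = s - PFR_m p q := by unfold PFR_m; ring
  rw [h3]
  field_simp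

theorem PFR : PFR_stmt := by
  intro p P hP
  obtain ⟨E, hE⟩ : ∃ E : ℝ[X], E = ∏ q : Fin p, (X - C (PFR_m p q)) := ⟨_, rfl⟩
  have hEm : E.Monic := by
    rw [hE]
    exact monic_prod_of_monic _ _ fun q _ => monic_X_sub_C _
  have hEd : E.natDegree = p := by
    rw [hE, natDegree_prod_of_monic _ _ (fun q _ => monic_X_sub_C _)]
    simp
  have hEe : ∀ s, E.eval s = ell p s := by
    intro s
    rw [hE, eval_prod, PFR_ell]
    apply Finset.prod_congr rfl
    intro q _
    simp
  obtain ⟨Q, hQ⟩ : ∃ Q : ℝ[X], Q = P - C (P.coeff p) * E := ⟨_, rfl⟩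
  have hQd : Q.degree < ((Finset.univ : Finset (Fin p)).card : WithBot ℕ) := by
    rw [Finset.card_univ, Fintype.card_fin, degree_lt_iff_coeff_zero]
    intro n hn
    rw [hQ, coeff_sub, coeff_C_mul]
    rcases hn.lt_or_eq with h | h
    · have h2 : E.natDegree < n := by rw [hEd]; exact h
      rw [coeff_eq_zero_of_natDegree_lt (lt_of_le_of_lt hP h),
        coeff_eq_zero_of_natDegree_lt h2]
      simp
    · have h1 : E.coeff n = 1 := by
        have := hEm.coeff_natDegree
        rw [hEd] at this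
        rw [← h]
        exact this
      rw [h1, ← h]
      simp
  have hQi := Lagrange.eq_interpolate (v := PFR_m p) (s := Finset.univ)
    (fun a _ b _ h => PFR_inj p h) hQd
  refine ⟨P.coeff p, fun q => Q.eval (PFR_m p q) *
    ∏ q' ∈ Finset.univ.erase q, (PFR_m p q - PFR_m p q')⁻¹, fun s hs => ?_⟩
  have h1 : P.eval s = P.coeff p * ell p s + Q.eval s := by
    rw [hQ, eval_sub, eval_mul, eval_C, hEe]
    ring
  have h2 : Q.eval s = ∑ q, Q.eval (PFR_m p q) *
      ((∏ q' ∈ Finset.univ.erase q, (PFR_m p q - PFR_m p q')⁻¹) *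
        ∏ q' ∈ Finset.univ.erase q, (s - PFR_m p q')) := by
    conv_lhs => rw [hQi]
    rw [Lagrange.interpolate_apply, eval_finsetSum]
    apply Finset.sum_congr rfl
    intro q _
    rw [eval_mul, eval_C, Lagrange.basis, eval_prod, ← Finset.prod_mul_distrib]
    congr 1
    apply Finset.prod_congr rfl
    intro q' _
    simp [Lagrange.basisDivisor]
  rw [h1, h2, mul_add, Finset.mul_sum]
  congr 1
  · ring
  · apply Finset.sum_congr rfl
    intro q _
    rw [← PFR_Yl p s hs q]
    ring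

end Pool.Agent.GF
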