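import Pool.Agent.helper59.GF.Spec

set_option autoImplicit false

namespace Pool.Agent.GF

open Filter Topology

theorem PLT (hPOO : POO_stmt) (hPOP : POP_stmt) (hPDI : PDI_stmt) : PLT_stmt := by
  intro p m V ι τ _ _ _ _ J hJ hG
  obtain ⟨s, x, a, b, c, ρ, w, hb, hw, hs, hell, hsep, hdist⟩ := hG
  obtain ⟨S, hS⟩ : ∃ S : ℝ, ∀ i, s i ≤ S := by
    obtain ⟨S, hS⟩ := (Set.finite_range s).bddAbove
    exact ⟨S, fun i => hS ⟨i, rfl⟩⟩
  obtain ⟨s', hs'⟩ : ∃ s' : Fin m → ℝ, ∀ j, s' j = max S p + 1 + ((j : ℕ) : ℝ) :=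
    ⟨_, fun _ => rfl⟩
  have h1 : ∀ j, S < s' j := by
    intro j
    have h2 : (0 : ℝ) ≤ ((j : ℕ) : ℝ) := Nat.cast_nonneg _
    have h3 := le_max_left S (p : ℝ)
    rw [hs']
    linarith
  have h1' : ∀ j, (p : ℝ) + 1 ≤ s' j := by
    intro j
    have h2 : (0 : ℝ) ≤ ((j : ℕ) : ℝ) := Nat.cast_nonneg _
    have h3 := le_max_right S (p : ℝ)
    rw [hs']
    linarith
  have hsN : Function.Injective (sN s s') := by
    rintro (i | i) (j | j) hij
    · exact congrArg Sum.inl (hs hij)
    · have h2 : s i = s' j := hij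
      have h3 := hS i
      have h4 := h1 j
      exfalso
      linarith
    · have h2 : s' i = s j := hij
      have h3 := hS j
      have h4 := h1 i
      exfalso
      linarith
    · have h2 : s' i = s' j := hij
      rw [hs', hs'] at h2
      have h3 : ((i : ℕ) : ℝ) = ((j : ℕ) : ℝ) := by linarith
      have h4 : (i : ℕ) = (j : ℕ) := by exact_mod_cast h3
      rw [Fin.ext h4]
  have hellN : ∀ i, ell p (sN s s' i) ≠ 0 := by
    rintro (i | i)
    · exact hell i
    · change ell p (s' i) ≠ 0
      unfold ell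
      rw [Finset.prod_ne_zero_iff]
      intro q _
      have h2 : ((q : ℕ) : ℝ) + 1 ≤ p := by exact_mod_cast q.2
      have h3 := h1' i
      intro h4
      linarith
  -- the choice of `η`
  have hη : ∀ᶠ η in 𝓝[>] (0 : ℝ), ∀ I : Fin (p + 2) → ι, Function.Injective I →
      ∀ C : ℝ, SepT p (sN s s') (xP x C) (fun t : τ × Fin (m + 1) => a t.1)
        (bP b w η) (fun t => c t.1) (fun r => Sum.inl (I r)) := by
    rw [eventually_all]
    intro I
    by_cases hI : Function.Injective I
    · filter_upwards [hPOO p m V ι τ s s' x a b c w I (hsep I hI)] with η h _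
      exact h
    · exact Eventually.of_forall fun η h => absurd h hI
  obtain ⟨η, hη1, hη0⟩ := (hη.and self_mem_nhdsWithin).exists
  have hη0' : 0 < η := hη0
  -- the choice of `C`
  have hC : ∀ᶠ C in atTop, ∀ I : Fin (p + 2) → ι ⊕ Fin m, Function.Injective I →
      SepT p (sN s s') (xP x C) (fun t : τ × Fin (m + 1) => a t.1)
        (bP b w η) (fun t => c t.1) I := by
    rw [eventually_all]
    intro I
    by_cases hI : Function.Injective I
    · by_cases h1 : ∃ r, (I r).isRight = true
      · filter_upwards [hPOP p m V ι τ s s' x a b c ρ w hb hw hsN hellN η hη0' I hI h1]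
          with C h _
        exact h
      · have h3 : ∀ r, ∃ i, I r = Sum.inl i := by
          intro r
          have h4 : ¬ (I r).isRight = true := fun h => h1 ⟨r, h⟩
          rcases hr : I r with i | i
          · exact ⟨i, rfl⟩
          · rw [hr] at h4
            exact absurd rfl h4
        choose I' hI' using h3
        have h4 : I = fun r => Sum.inl (I' r) := funext hI'
        have h5 : Function.Injective I' := by
          intro r r' h
          apply hI
          rw [hI' r, hI' r', h]
        rw [h4]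
        exact Eventually.of_forall fun C _ => hη1 I' h5 C
    · exact Eventually.of_forall fun C h => absurd h hI
  obtain ⟨C, hC1, hC2⟩ := (hC.and (hPDI p m ι τ s s' x J hJ hsN hellN hdist)).exists
  exact ⟨sN s s', xP x C, fun t => a t.1, bP b w η, fun t => c t.1, hsN, hellN, hC1, hC2⟩

end Pool.Agent.GF
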