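import Pool.Agent.helper59.GF.Spec

set_option autoImplicit false

namespace Pool.Agent.GF

open Filter Topology

theorem POP_mu {ι : Type} {p : ℕ} {s : ι → ℝ} (hs : Function.Injective s)
    (hell : ∀ i, ell p (s i) ≠ 0) {I : Fin (p + 2) → ι} (hI : Function.Injective I)
    (r : Fin (p + 2)) : mu p (s ∘ I) r ≠ 0 := by
  unfold mu
  apply div_ne_zero (hell _)
  rw [Finset.prod_ne_zero_iff]
  intro r' hr'
  rw [sub_ne_zero]
  intro h
  exact (Finset.mem_erase.mp hr').1 (hI (hs h)).symm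

theorem POP : POP_stmt := by
  intro p m V ι τ _ _ _ s s' x a b c ρ w hb hw hs hell η hη I hI hex
  classical
  -- the largest plate
  obtain ⟨r₀, i, hr₀, hmax⟩ : ∃ (r₀ : Fin (p + 2)) (i : Fin m), I r₀ = Sum.inr i ∧
      ∀ r i', I r = Sum.inr i' → i' ≤ i := by
    set S : Finset (Fin m) := Finset.univ.filter fun i => ∃ r, I r = Sum.inr i with hS
    have hne : S.Nonempty := by
      obtain ⟨r, hr⟩ := hex
      obtain ⟨i, hi⟩ := Sum.isRight_iff.mp hr
      exact ⟨i, by rw [hS, Finset.mem_filter]; exact ⟨Finset.mem_univ _, r, hi⟩⟩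
    have h1 := Finset.mem_filter.mp (S.max'_mem hne)
    obtain ⟨-, r₀, hr₀⟩ := h1
    refine ⟨r₀, _, hr₀, fun r i' hr => ?_⟩
    apply Finset.le_max'
    exact Finset.mem_filter.mpr ⟨Finset.mem_univ _, r, hr⟩
  have hmu0 := POP_mu hs hell hI r₀
  obtain ⟨M, hM⟩ : ∃ M : Fin (p + 2) → ℝ, ∀ r, M r = mu p (sN s s' ∘ I) r := ⟨_, fun _ => rfl⟩
  have hM0 : M r₀ ≠ 0 := by rw [hM]; exact hmu0
  -- bounds
  obtain ⟨R, hR0, hR⟩ : ∃ R : ℝ, 0 ≤ R ∧ ∀ (t : τ) (r : Fin (p + 2)),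
      |ρ (a t) + ρ (c t (Yl p (sN s s' (I r))))| ≤ R := by
    obtain ⟨R, hR⟩ := (Set.finite_range fun q : τ × Fin (p + 2) =>
      |ρ (a q.1) + ρ (c q.1 (Yl p (sN s s' (I q.2))))|).bddAbove
    exact ⟨max R 0, le_max_right _ _, fun t r => (hR ⟨(t, r), rfl⟩).trans (le_max_left _ _)⟩
  obtain ⟨X, hX0, hX⟩ : ∃ X : ℝ, 0 ≤ X ∧ ∀ (t : τ) (r : Fin (p + 2)) (j : ι),
      I r = Sum.inl j → |x t j| ≤ X := by
    obtain ⟨X, hX⟩ := (Set.finite_range fun q : τ × Fin (p + 2) =>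
      |Sum.elim (fun j => x q.1 j) (fun _ => 0) (I q.2)|).bddAbove
    refine ⟨max X 0, le_max_right _ _, fun t r j hj => ?_⟩
    have h1 := hX ⟨(t, r), rfl⟩
    simp only [hj, Sum.elim_inl] at h1
    exact h1.trans (le_max_left _ _)
  obtain ⟨W, hW⟩ : ∃ W : ℝ, W = R + η * (m + 1) * (2 + X) := ⟨_, rfl⟩
  have hm0 : (0 : ℝ) ≤ m := Nat.cast_nonneg m
  have hW0 : 0 ≤ W := by rw [hW]; positivity
  -- the sign
  obtain ⟨σ, hσ, hσ1⟩ : ∃ σ : ℝ, σ * M r₀ = |M r₀| ∧ |σ| = 1 := by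
    rcases lt_or_gt_of_ne hM0 with h | h
    · exact ⟨-1, by rw [abs_of_neg h]; ring, by simp⟩
    · exact ⟨1, by rw [abs_of_pos h]; ring, by simp⟩
  have hMpos : 0 < |M r₀| * η := mul_pos (abs_pos.mpr hM0) hη
  filter_upwards [eventually_ge_atTop (1 : ℝ),
    eventually_gt_atTop ((W * ∑ r, |M r|) / (|M r₀| * η))] with C hC1 hC2
  rw [div_lt_iff₀ hMpos] at hC2
  have hCi : 1 ≤ C ^ (i : ℕ) := one_le_pow₀ hC1
  refine ⟨σ • (ρ ∘ₗ LinearMap.snd ℝ ℝ V - (η * ((i : ℕ) + 1 / 2)) • LinearMap.fst ℝ ℝ V),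
    fun t => ?_⟩
  -- the values
  have hval : ∀ r, (σ • (ρ ∘ₗ LinearMap.snd ℝ ℝ V -
      (η * ((i : ℕ) + 1 / 2)) • LinearMap.fst ℝ ℝ V))
      (xP x C (t r) (I r), a (t r).1 + xP x C (t r) (I r) • bP b w η (t r) +
        c (t r).1 (Yl p (sN s s' (I r)))) =
      σ * ((ρ (a (t r).1) + ρ (c (t r).1 (Yl p (sN s s' (I r))))) +
        η * (xP x C (t r) (I r) * (((t r).2 : ℕ) - (i : ℕ) - 1 / 2))) := by
    intro r
    simp only [LinearMap.smul_apply, LinearMap.sub_apply, LinearMap.comp_apply,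
      LinearMap.snd_apply, LinearMap.fst_apply, map_add, map_smul, bP, hb, hw, smul_eq_mul]
    ring
  have hterm : ∀ r, (if r = r₀ then |M r₀| * η * C ^ ((i : ℕ) + 1) else 0) -
      |M r| * (C ^ (i : ℕ) * W) ≤ M r * (σ *
        ((ρ (a (t r).1) + ρ (c (t r).1 (Yl p (sN s s' (I r))))) +
        η * (xP x C (t r) (I r) * (((t r).2 : ℕ) - (i : ℕ) - 1 / 2)))) := by
    intro r
    have hRr := hR (t r).1 r
    have hRW : R ≤ C ^ (i : ℕ) * W := by
      have h1 : R ≤ W := by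
        rw [hW]
        have : 0 ≤ η * (m + 1) * (2 + X) := by positivity
        linarith
      calc R ≤ W := h1
        _ = 1 * W := (one_mul W).symm
        _ ≤ C ^ (i : ℕ) * W := mul_le_mul_of_nonneg_right hCi hW0
    have hβ : |((((t r).2 : ℕ) : ℝ) - ((i : ℕ) : ℝ) - 1 / 2)| ≤ m + 1 := by
      have h1 : (((t r).2 : ℕ) : ℝ) ≤ m := by exact_mod_cast Nat.lt_succ_iff.mp (t r).2.2
      have h2 : (0 : ℝ) ≤ (((t r).2 : ℕ) : ℝ) := Nat.cast_nonneg _
      have h3 : ((i : ℕ) : ℝ) + 1 ≤ m := by exact_mod_cast i.2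
      have h4 : (0 : ℝ) ≤ ((i : ℕ) : ℝ) := Nat.cast_nonneg _
      rw [abs_le]
      constructor <;> linarith
    by_cases hr : r = r₀
    · subst hr
      rw [if_pos rfl, hr₀]
      have h1 : xP x C (t r) (Sum.inr i) * ((((t r).2 : ℕ) : ℝ) - ((i : ℕ) : ℝ) - 1 / 2) =
          C ^ ((i : ℕ) + 1) := by
        unfold xP
        simp only [Sum.elim_inr]
        apply div_mul_cancel₀
        intro h2
        have h3 : (2 * ((t r).2 : ℕ) : ℤ) - 2 * ((i : ℕ) : ℤ) - 1 ≠ 0 := by omega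
        apply h3
        have h4 : (2 * (((t r).2 : ℕ) : ℝ)) - 2 * ((i : ℕ) : ℝ) - 1 = 0 := by linarith
        exact_mod_cast h4
      rw [h1]
      rw [hr₀] at hRr
      have h2 : M r * (σ * (ρ (a (t r).1) + ρ (c (t r).1 (Yl p (sN s s' (Sum.inr i)))) +
          η * C ^ ((i : ℕ) + 1))) = |M r| * (ρ (a (t r).1) +
            ρ (c (t r).1 (Yl p (sN s s' (Sum.inr i))))) + |M r| * η * C ^ ((i : ℕ) + 1) := by
        rw [← hσ]
        ring
      rw [h2]
      have h3 : |M r| * (-(C ^ (i : ℕ) * W)) ≤ |M r| * (ρ (a (t r).1) +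
            ρ (c (t r).1 (Yl p (sN s s' (Sum.inr i))))) := by
        apply mul_le_mul_of_nonneg_left _ (abs_nonneg _)
        have := (abs_le.mp hRr).1
        linarith
      linarith
    · rw [if_neg hr, zero_sub]
      have h1 : |η * (xP x C (t r) (I r) * ((((t r).2 : ℕ) : ℝ) - ((i : ℕ) : ℝ) - 1 / 2))| ≤
          η * (m + 1) * (C ^ (i : ℕ) * (2 + X)) := by
        rw [abs_mul, abs_of_pos hη, abs_mul]
        have h2 : |xP x C (t r) (I r)| ≤ C ^ (i : ℕ) * (2 + X) := by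
          rcases hIr : I r with j | i'
          · have h3 := hX (t r).1 r j hIr
            have h4 : xP x C (t r) (Sum.inl j) = x (t r).1 j := rfl
            rw [h4]
            calc |x (t r).1 j| ≤ X := h3
              _ ≤ 1 * (2 + X) := by linarith
              _ ≤ C ^ (i : ℕ) * (2 + X) := mul_le_mul_of_nonneg_right hCi (by linarith)
          · have h3 := hmax r i' hIr
            have h4 : i' ≠ i := by
              intro h5
              apply hr
              apply hI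
              rw [hIr, hr₀, h5]
            have h5 : (i' : ℕ) + 1 ≤ i := by
              have h6 : (i' : ℕ) ≤ i := h3
              have h7 : (i' : ℕ) ≠ i := fun h => h4 (Fin.ext h)
              omega
            have h6 : xP x C (t r) (Sum.inr i') =
              C ^ ((i' : ℕ) + 1) / (((t r).2 : ℕ) - (i' : ℕ) - 1 / 2) := rfl
            rw [h6, abs_div]
            have h7 : (1 : ℝ) / 2 ≤ |((((t r).2 : ℕ) : ℝ) - ((i' : ℕ) : ℝ) - 1 / 2)| := by
              rcases Nat.lt_or_ge (i' : ℕ) ((t r).2 : ℕ) with h8 | h8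
              · have h9 : ((i' : ℕ) : ℝ) + 1 ≤ (((t r).2 : ℕ) : ℝ) := by exact_mod_cast h8
                rw [abs_of_nonneg (by linarith)]
                linarith
              · have h9 : (((t r).2 : ℕ) : ℝ) ≤ ((i' : ℕ) : ℝ) := by exact_mod_cast h8
                rw [abs_of_nonpos (by linarith)]
                linarith
            have h8 : 0 ≤ C ^ ((i' : ℕ) + 1) := by positivity
            rw [abs_of_nonneg h8, div_le_iff₀ (by linarith)]
            have h9 : C ^ ((i' : ℕ) + 1) ≤ C ^ (i : ℕ) := pow_le_pow_right₀ hC1 h5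
            have h10 : 0 ≤ C ^ (i : ℕ) * X := by positivity
            have h11 : C ^ (i : ℕ) * (2 + X) * (1 / 2) ≤ C ^ (i : ℕ) * (2 + X) *
                |((((t r).2 : ℕ) : ℝ) - ((i' : ℕ) : ℝ) - 1 / 2)| := by
              apply mul_le_mul_of_nonneg_left h7
              positivity
            linarith
        calc η * (|xP x C (t r) (I r)| * |((((t r).2 : ℕ) : ℝ) - ((i : ℕ) : ℝ) - 1 / 2)|)
            ≤ η * ((C ^ (i : ℕ) * (2 + X)) * (m + 1)) := by
              apply mul_le_mul_of_nonneg_left _ hη.le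
              apply mul_le_mul h2 hβ (abs_nonneg _) (by positivity)
          _ = η * (m + 1) * (C ^ (i : ℕ) * (2 + X)) := by ring
      have h3 : |(ρ (a (t r).1) + ρ (c (t r).1 (Yl p (sN s s' (I r))))) +
        η * (xP x C (t r) (I r) * ((((t r).2 : ℕ) : ℝ) - ((i : ℕ) : ℝ) - 1 / 2))| ≤
          C ^ (i : ℕ) * W := by
        have h4 := abs_add_le (ρ (a (t r).1) + ρ (c (t r).1 (Yl p (sN s s' (I r)))))
          (η * (xP x C (t r) (I r) * ((((t r).2 : ℕ) : ℝ) - ((i : ℕ) : ℝ) - 1 / 2)))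
        have h5 : R ≤ C ^ (i : ℕ) * R := by
          calc R = 1 * R := (one_mul R).symm
            _ ≤ C ^ (i : ℕ) * R := mul_le_mul_of_nonneg_right hCi hR0
        have h6 : C ^ (i : ℕ) * W = C ^ (i : ℕ) * R + η * (m + 1) * (C ^ (i : ℕ) * (2 + X)) := by
          rw [hW]; ring
        linarith
      have h4 := neg_abs_le (M r * (σ *
        ((ρ (a (t r).1) + ρ (c (t r).1 (Yl p (sN s s' (I r))))) +
        η * (xP x C (t r) (I r) * ((((t r).2 : ℕ) : ℝ) - ((i : ℕ) : ℝ) - 1 / 2)))))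
      rw [abs_mul, abs_mul, hσ1, one_mul] at h4
      have h5 := mul_le_mul_of_nonneg_left h3 (abs_nonneg (M r))
      linarith
  have hsum := Finset.sum_le_sum (fun r (_ : r ∈ (Finset.univ : Finset (Fin (p + 2)))) => hterm r)
  rw [Finset.sum_sub_distrib, Finset.sum_ite_eq' Finset.univ r₀, if_pos (Finset.mem_univ _),
    ← Finset.sum_mul] at hsum
  have hfin : 0 < |M r₀| * η * C ^ ((i : ℕ) + 1) - (∑ r, |M r|) * (C ^ (i : ℕ) * W) := by
    have h1 : |M r₀| * η * C ^ ((i : ℕ) + 1) - (∑ r, |M r|) * (C ^ (i : ℕ) * W) =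
        C ^ (i : ℕ) * (C * (|M r₀| * η) - W * ∑ r, |M r|) := by ring
    rw [h1]
    apply mul_pos (by linarith)
    linarith
  have hgoal : ∑ r, mu p (sN s s' ∘ I) r * (σ • (ρ ∘ₗ LinearMap.snd ℝ ℝ V -
      (η * ((i : ℕ) + 1 / 2)) • LinearMap.fst ℝ ℝ V))
      (xP x C (t r) (I r), a (t r).1 + xP x C (t r) (I r) • bP b w η (t r) +
        c (t r).1 (Yl p (sN s s' (I r)))) = ∑ r, M r * (σ *
        ((ρ (a (t r).1) + ρ (c (t r).1 (Yl p (sN s s' (I r))))) +
        η * (xP x C (t r) (I r) * (((t r).2 : ℕ) - (i : ℕ) - 1 / 2)))) := by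
    apply Finset.sum_congr rfl
    intro r _
    rw [hval, hM]
  rw [hgoal]
  linarith

end Pool.Agent.GF
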