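import Pool.Agent.helper59.GF.Spec

set_option autoImplicit false

namespace Pool.Agent.GF

open Filter Topology

theorem TRC_half (a b : ℕ) : ((a : ℝ) - (b : ℝ) - 1 / 2) ≠ 0 := by
  intro h
  have h3 : (2 * (a : ℤ)) - 2 * (b : ℤ) - 1 ≠ 0 := by omega
  apply h3
  have h4 : (2 * (a : ℝ)) - 2 * (b : ℝ) - 1 = 0 := by linarith
  exact_mod_cast h4

theorem TRC_nd (p m : ℕ) (i : Fin (p + 2) × Fin m) :
    Tendsto (fun δ => nd p m δ i) (𝓝[>] 0) (𝓝 (cen p i.1)) := by
  have h1 : Tendsto (fun δ : ℝ => ((i.1 : ℕ) : ℝ) +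
      δ ^ ((2 * p + 6) ^ ((i.1 : ℕ) * m + (i.2 : ℕ) + 1))) (𝓝[>] 0)
      (𝓝 (((i.1 : ℕ) : ℝ) + 0 ^ ((2 * p + 6) ^ ((i.1 : ℕ) * m + (i.2 : ℕ) + 1)))) := by
    apply Tendsto.mono_left _ nhdsWithin_le_nhds
    have : Continuous fun δ : ℝ => ((i.1 : ℕ) : ℝ) +
      δ ^ ((2 * p + 6) ^ ((i.1 : ℕ) * m + (i.2 : ℕ) + 1)) := by fun_prop
    exact this.tendsto 0
  rw [zero_pow (by positivity), add_zero] at h1
  exact h1

theorem TRC : TRC_stmt := by
  intro p m I hI
  have hnd : ∀ r, Tendsto (fun δ => nd p m δ (I r)) (𝓝[>] 0) (𝓝 (cen p r)) := by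
    intro r
    have := TRC_nd p m (I r)
    rw [hI] at this
    exact this
  constructor
  · intro r
    unfold mu
    apply Tendsto.div
    · unfold ell
      apply tendsto_finsetProd
      intro q _
      exact ((hnd r).sub_const _).sub_const _
    · apply tendsto_finsetProd
      intro r' _
      exact (hnd r).sub (hnd r')
    · rw [Finset.prod_ne_zero_iff]
      intro r' hr'
      rw [sub_ne_zero]
      intro h
      apply (Finset.mem_erase.mp hr').1
      unfold cen at h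
      have h1 : (r : ℕ) = (r' : ℕ) := by exact_mod_cast h
      exact (Fin.ext h1).symm
  · intro r q
    unfold Yl
    apply Tendsto.div tendsto_const_nhds
    · exact ((hnd r).sub_const _).sub_const _
    · exact TRC_half _ _

end Pool.Agent.GF
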