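import Pool.Agent.helper59.GF.Spec

set_option autoImplicit false

namespace Pool.Agent.GF

open Filter Topology

theorem TRV_sum {k : ℕ} (l g x : Fin k → ℝ) (hl : ∑ q, l q = 1) (u v c d : ℝ) :
    ∑ q, l q * (g q - u * x q + v * (c - x q) - d) =
      ∑ q, l q * g q - u * ∑ q, l q * x q + v * (c - ∑ q, l q * x q) - d := by
  have h1 : ∀ q, l q * (g q - u * x q + v * (c - x q) - d) =
      l q * g q - u * (l q * x q) + (v * c * l q - v * (l q * x q)) - d * l q := by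
    intro q
    ring
  simp only [h1]
  rw [Finset.sum_sub_distrib, Finset.sum_add_distrib, Finset.sum_sub_distrib,
    Finset.sum_sub_distrib, ← Finset.mul_sum, ← Finset.mul_sum, ← Finset.mul_sum,
    ← Finset.mul_sum, hl]
  ring

theorem TRV_mono {T : ℕ → ℝ} {N : ℕ} (h : ∀ n, n + 1 < N → T n < T (n + 1)) :
    ∀ n n' : ℕ, n < n' → n' < N → T n < T n' := by
  intro n n' hn
  induction n', hn using Nat.le_induction with
  | base => intro h1; exact h n h1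
  | succ k hk ih =>
    intro h1
    exact (ih (by omega)).trans (h k h1)

theorem TRV (hSST : SST_stmt) (hEMV : EMV_stmt) : TRV_stmt := by
  intro p m X dig T hT hsum
  have hTe := hT.2.2.1
  have hinc := hT.2.2.2.1
  have hx := hT.2.2.2.2
  have hmono := TRV_mono hinc
  obtain ⟨x, hxdef⟩ : ∃ x : Fin (p + 1) → ℕ → ℝ, ∀ q n, x q n = X q (dig n q) :=
    ⟨_, fun _ _ => rfl⟩
  have hxx : ∀ q, (fun i => X q (dig i q)) = x q := fun q => funext fun n => (hxdef q n).symm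
  have hSx : ∀ n, ∑ q, lam p q * x q n = -T n := by
    intro n
    rw [hTe n, neg_neg]
    apply Finset.sum_congr rfl
    intro q _
    rw [hxdef]
  have hE := hEMV (p + 1) (lam p) x T hsum (fun n => by rw [hSx, neg_neg])
  have hS : ∀ q n n', n < m ^ (p + 1) → n' < m ^ (p + 1) →
      3 / 16 * (T n' - T n) ^ 2 ≤
        GG T (x q) n' - GG T (x q) n + T n' * (x q n - x q n') - T n / 2 * (T n' - T n) := by
    intro q n n' hn hn'
    apply hSST (m ^ (p + 1)) T (x q) hinc _ n n' hn hn'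
    intro i hi
    rw [hxdef, hxdef]
    exact hx i hi q
  have hne : ∀ n n', n < m ^ (p + 1) → n' < m ^ (p + 1) → n ≠ n' → 0 < (T n' - T n) ^ 2 := by
    intro n n' hn hn' h
    rw [sq_pos_iff]
    rcases lt_or_gt_of_ne h with h1 | h1
    · have := hmono n n' h1 hn'
      exact (sub_pos.mpr this).ne'
    · have := hmono n' n h1 hn
      exact (sub_neg.mpr this).ne
  -- first inequality
  have h1 : ∀ᶠ ε in 𝓝[>] (0 : ℝ), ∀ (n₀ : Fin (m ^ (p + 1))) (i₀ : Fin m) (q : Fin (p + 1))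
      (n : Fin (m ^ (p + 1))) (β : Fin m),
      GG T (x q) n₀ - T n₀ * x q n₀ + ε * ((i₀ : ℕ) + 1 / 2) * (T n₀ / 2 - x q n₀) -
        T n₀ / 2 * (T n₀ + ε * ((i₀ : ℕ) + 1 / 2)) ≤
      (al T ε n β - (T n₀ + ε * ((i₀ : ℕ) + 1 / 2))) * x q n₀ +
        gm T (x q) ε n β - T n₀ / 2 * al T ε n β := by
    rw [eventually_all]; intro n₀
    rw [eventually_all]; intro i₀
    rw [eventually_all]; intro q
    rw [eventually_all]; intro n
    rw [eventually_all]; intro β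
    by_cases hn : (n₀ : ℕ) = n
    · refine Eventually.of_forall fun ε => le_of_eq ?_
      unfold al gm
      rw [← hn]
      ring
    · have e1 : Tendsto (fun ε : ℝ => (al T ε n β - (T n₀ + ε * ((i₀ : ℕ) + 1 / 2))) * x q n₀ +
          gm T (x q) ε n β - T n₀ / 2 * al T ε n β -
          (GG T (x q) n₀ - T n₀ * x q n₀ + ε * ((i₀ : ℕ) + 1 / 2) * (T n₀ / 2 - x q n₀) -
        T n₀ / 2 * (T n₀ + ε * ((i₀ : ℕ) + 1 / 2)))) (𝓝[>] 0)
        (𝓝 ((al T 0 n β - (T n₀ + 0 * ((i₀ : ℕ) + 1 / 2))) * x q n₀ +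
          gm T (x q) 0 n β - T n₀ / 2 * al T 0 n β -
          (GG T (x q) n₀ - T n₀ * x q n₀ + 0 * ((i₀ : ℕ) + 1 / 2) * (T n₀ / 2 - x q n₀) -
        T n₀ / 2 * (T n₀ + 0 * ((i₀ : ℕ) + 1 / 2))))) := by
        apply Tendsto.mono_left _ nhdsWithin_le_nhds
        have : Continuous (fun ε : ℝ => (al T ε n β - (T n₀ + ε * ((i₀ : ℕ) + 1 / 2))) * x q n₀ +
          gm T (x q) ε n β - T n₀ / 2 * al T ε n β -
          (GG T (x q) n₀ - T n₀ * x q n₀ + ε * ((i₀ : ℕ) + 1 / 2) * (T n₀ / 2 - x q n₀) -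
        T n₀ / 2 * (T n₀ + ε * ((i₀ : ℕ) + 1 / 2)))) := by
          unfold al gm
          fun_prop
        exact this.tendsto 0
      have e2 : 0 < (al T 0 n β - (T n₀ + 0 * ((i₀ : ℕ) + 1 / 2))) * x q n₀ +
          gm T (x q) 0 n β - T n₀ / 2 * al T 0 n β -
          (GG T (x q) n₀ - T n₀ * x q n₀ + 0 * ((i₀ : ℕ) + 1 / 2) * (T n₀ / 2 - x q n₀) -
        T n₀ / 2 * (T n₀ + 0 * ((i₀ : ℕ) + 1 / 2))) := by
        have e3 := hS q n₀ n n₀.2 n.2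
        have e4 := hne n₀ n n₀.2 n.2 hn
        unfold al gm
        have e5 : (T n + 0 * ((β : ℕ) : ℝ) - (T n₀ + 0 * (((i₀ : ℕ) : ℝ) + 1 / 2))) * x q n₀ +
          (GG T (x q) n - T n * x q n + 0 * ((β : ℕ) : ℝ) * (T n / 2 - x q n)) -
          T n₀ / 2 * (T n + 0 * ((β : ℕ) : ℝ)) -
          (GG T (x q) n₀ - T n₀ * x q n₀ + 0 * (((i₀ : ℕ) : ℝ) + 1 / 2) *
            (T n₀ / 2 - x q n₀) - T n₀ / 2 * (T n₀ + 0 * (((i₀ : ℕ) : ℝ) + 1 / 2))) =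
          GG T (x q) n - GG T (x q) n₀ + T n * (x q n₀ - x q n) -
            T n₀ / 2 * (T n - T n₀) := by ring
        rw [e5]
        linarith
      filter_upwards [e1.eventually_const_lt e2] with ε hε
      linarith
  -- second inequality
  have h2 : ∀ᶠ ε in 𝓝[>] (0 : ℝ), ∀ (n₀ : Fin (m ^ (p + 1))) (i₀ : Fin m)
      (n : Fin (m ^ (p + 1))) (β : Fin m),
      (al T ε n β - (T n₀ + ε * ((i₀ : ℕ) + 1 / 2))) * (-al T ε n β + ε * ((i₀ : ℕ) + 1 / 2)) +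
        ∑ q, lam p q * gm T (x q) ε n β - T n₀ / 2 * al T ε n β ≤
      ∑ q, lam p q * (GG T (x q) n₀ - T n₀ * x q n₀ +
        ε * ((i₀ : ℕ) + 1 / 2) * (T n₀ / 2 - x q n₀) -
        T n₀ / 2 * (T n₀ + ε * ((i₀ : ℕ) + 1 / 2))) - ε ^ 2 / 4 := by
    have hgm : ∀ (ε : ℝ) (n β : ℕ), ∑ q, lam p q * gm T (x q) ε n β =
        ∑ q, lam p q * GG T (x q) n + T n ^ 2 + ε * β * (T n / 2 + T n) := by
      intro ε n β
      have e1 := TRV_sum (lam p) (fun q => GG T (x q) n) (fun q => x q n) hsum (T n) (ε * β)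
        (T n / 2) 0
      simp only [sub_zero] at e1
      unfold gm
      rw [e1, hSx]
      ring
    rw [eventually_all]; intro n₀
    rw [eventually_all]; intro i₀
    rw [eventually_all]; intro n
    rw [eventually_all]; intro β
    have hK : ∀ ε : ℝ, ∑ q, lam p q * (GG T (x q) n₀ - T n₀ * x q n₀ +
        ε * ((i₀ : ℕ) + 1 / 2) * (T n₀ / 2 - x q n₀) -
        T n₀ / 2 * (T n₀ + ε * ((i₀ : ℕ) + 1 / 2))) =
        ∑ q, lam p q * GG T (x q) n₀ + T n₀ ^ 2 +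
          ε * ((i₀ : ℕ) + 1 / 2) * (T n₀ / 2 + T n₀) -
          T n₀ / 2 * (T n₀ + ε * ((i₀ : ℕ) + 1 / 2)) := by
      intro ε
      rw [TRV_sum (lam p) (fun q => GG T (x q) n₀) (fun q => x q n₀) hsum (T n₀)
        (ε * ((i₀ : ℕ) + 1 / 2)) (T n₀ / 2) (T n₀ / 2 * (T n₀ + ε * ((i₀ : ℕ) + 1 / 2))), hSx]
      ring
    simp only [hgm, hK]
    by_cases hn : (n₀ : ℕ) = n
    · refine Eventually.of_forall fun ε => ?_
      unfold al
      rw [← hn]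
      have e1 : 1 ≤ (2 * ((β : ℕ) : ℝ) - 2 * ((i₀ : ℕ) : ℝ) - 1) ^ 2 := by
        have h3 : (2 * ((β : ℕ) : ℤ)) - 2 * ((i₀ : ℕ) : ℤ) - 1 ≠ 0 := by omega
        have h4 : (1 : ℤ) ≤ ((2 * ((β : ℕ) : ℤ)) - 2 * ((i₀ : ℕ) : ℤ) - 1) ^ 2 := by
          have := Int.one_le_abs h3
          rw [← sq_abs]
          nlinarith
        exact_mod_cast h4
      have e2 : 0 ≤ ε ^ 2 := sq_nonneg ε
      have e3 : ε ^ 2 * 1 ≤ ε ^ 2 * (2 * ((β : ℕ) : ℝ) - 2 * ((i₀ : ℕ) : ℝ) - 1) ^ 2 :=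
        mul_le_mul_of_nonneg_left e1 e2
      nlinarith
    · have e1 : Tendsto (fun ε : ℝ => (al T ε n β - (T n₀ + ε * ((i₀ : ℕ) + 1 / 2))) *
          (-al T ε n β + ε * ((i₀ : ℕ) + 1 / 2)) +
          (∑ q, lam p q * GG T (x q) n + T n ^ 2 + ε * ((β : ℕ) : ℝ) * (T n / 2 + T n)) -
          T n₀ / 2 * al T ε n β -
          (∑ q, lam p q * GG T (x q) n₀ + T n₀ ^ 2 +
          ε * ((i₀ : ℕ) + 1 / 2) * (T n₀ / 2 + T n₀) -
          T n₀ / 2 * (T n₀ + ε * ((i₀ : ℕ) + 1 / 2)) - ε ^ 2 / 4)) (𝓝[>] 0)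
        (𝓝 ((al T 0 n β - (T n₀ + 0 * ((i₀ : ℕ) + 1 / 2))) *
          (-al T 0 n β + 0 * ((i₀ : ℕ) + 1 / 2)) +
          (∑ q, lam p q * GG T (x q) n + T n ^ 2 + 0 * ((β : ℕ) : ℝ) * (T n / 2 + T n)) -
          T n₀ / 2 * al T 0 n β -
          (∑ q, lam p q * GG T (x q) n₀ + T n₀ ^ 2 +
          0 * ((i₀ : ℕ) + 1 / 2) * (T n₀ / 2 + T n₀) -
          T n₀ / 2 * (T n₀ + 0 * ((i₀ : ℕ) + 1 / 2)) - 0 ^ 2 / 4))) := by
        apply Tendsto.mono_left _ nhdsWithin_le_nhds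
        have : Continuous (fun ε : ℝ => (al T ε n β - (T n₀ + ε * ((i₀ : ℕ) + 1 / 2))) *
          (-al T ε n β + ε * ((i₀ : ℕ) + 1 / 2)) +
          (∑ q, lam p q * GG T (x q) n + T n ^ 2 + ε * ((β : ℕ) : ℝ) * (T n / 2 + T n)) -
          T n₀ / 2 * al T ε n β -
          (∑ q, lam p q * GG T (x q) n₀ + T n₀ ^ 2 +
          ε * ((i₀ : ℕ) + 1 / 2) * (T n₀ / 2 + T n₀) -
          T n₀ / 2 * (T n₀ + ε * ((i₀ : ℕ) + 1 / 2)) - ε ^ 2 / 4)) := by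
          unfold al
          fun_prop
        exact this.tendsto 0
      have e2 : (al T 0 n β - (T n₀ + 0 * ((i₀ : ℕ) + 1 / 2))) *
          (-al T 0 n β + 0 * ((i₀ : ℕ) + 1 / 2)) +
          (∑ q, lam p q * GG T (x q) n + T n ^ 2 + 0 * ((β : ℕ) : ℝ) * (T n / 2 + T n)) -
          T n₀ / 2 * al T 0 n β -
          (∑ q, lam p q * GG T (x q) n₀ + T n₀ ^ 2 +
          0 * ((i₀ : ℕ) + 1 / 2) * (T n₀ / 2 + T n₀) -
          T n₀ / 2 * (T n₀ + 0 * ((i₀ : ℕ) + 1 / 2)) - 0 ^ 2 / 4) < 0 := by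
        have e3 := hE n₀ n
        have e4 := hne n₀ n n₀.2 n.2 hn
        have e6 : ∑ q, lam p q * (GG T (x q) n - GG T (x q) n₀) =
            ∑ q, lam p q * GG T (x q) n - ∑ q, lam p q * GG T (x q) n₀ := by
          rw [← Finset.sum_sub_distrib]
          apply Finset.sum_congr rfl
          intro q _
          ring
        rw [e6] at e3
        unfold al
        nlinarith
      filter_upwards [e1.eventually_lt_const e2] with ε hε
      linarith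
  filter_upwards [h1, h2] with ε hε1 hε2
  intro n₀ i₀ hn₀ hi₀
  refine ⟨fun q => GG T (x q) n₀ - T n₀ * x q n₀ + ε * (i₀ + 1 / 2) * (T n₀ / 2 - x q n₀) -
        T n₀ / 2 * (T n₀ + ε * (i₀ + 1 / 2)), ?_, ?_⟩
  · intro q n β hn hβ
    have := hε1 ⟨n₀, hn₀⟩ ⟨i₀, hi₀⟩ q ⟨n, hn⟩ ⟨β, hβ⟩
    rw [hxx, ← hxdef]
    exact this
  · intro n β hn hβ
    have := hε2 ⟨n₀, hn₀⟩ ⟨i₀, hi₀⟩ ⟨n, hn⟩ ⟨β, hβ⟩
    simp only [hxx]
    exact this

end Pool.Agent.GF
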