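import Pool.Agent.helper59.GF.Spec
import Pool.Agent.helper25.GF.DVD
import Pool.Agent.helper76.GF.LVL
import Pool.Agent.helper59.GF.PFR
import Pool.Agent.helper32.GF.INT
import Pool.Agent.helper17.GF.UNQ
import Pool.Agent.helper31.GF.DET
import Pool.Agent.helper13.GF.PRM
import Pool.Agent.helper2.GF.TOK
import Pool.Agent.helper59.GF.EQV
import Pool.Agent.helper59.GF.INI
import Pool.Agent.helper75.GF.LAM
import Pool.Agent.helper78.GF.TIM
import Pool.Agent.helper13.GF.SST
import Pool.Agent.helper3.GF.EMV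
import Pool.Agent.helper59.GF.TRV
import Pool.Agent.helper87.GF.CLP
import Pool.Agent.helper76.GF.MUR
import Pool.Agent.helper10.GF.ASY
import Pool.Agent.helper76.GF.NDE
import Pool.Agent.helper59.GF.TRC
import Pool.Agent.helper50.GF.AFB
import Pool.Agent.helper59.GF.LTR
import Pool.Agent.helper79.GF.LNT
import Pool.Agent.helper81.GF.LDI
import Pool.Agent.helper59.GF.LOC
import Pool.Agent.helper50.GF.KAP
import Pool.Agent.helper11.GF.BOO
import Pool.Agent.helper33.GF.BNN
import Pool.Agent.helper99.GF.BMX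
import Pool.Agent.helper74.GF.BDI
import Pool.Agent.helper59.GF.BLK
import Pool.Agent.helper99.GF.POO
import Pool.Agent.helper59.GF.POP
import Pool.Agent.helper59.GF.PDI
import Pool.Agent.helper59.GF.PLT
import Pool.Agent.helper59.GF.CHN
import Pool.Agent.helper59.GF.EDD

set_option autoImplicit false

/-! The rows put together. -/

namespace Pool.Agent.GF

theorem LVL_all : LVL_stmt := LVL DVD

theorem INT_all : INT_stmt := INT PFR

theorem TOK_all : TOK_stmt := TOK INT_all LVL_all (DET (UNQ INT_all LVL_all))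

theorem LAM_all : LAM_stmt := LAM LVL_all

theorem LOC_all : LOC_stmt :=
  LOC LAM_all TIM (TRV SST EMV) (AFB INT_all LVL_all) (LTR TRC LAM_all) (LNT (ASY CLP MUR))
    (LDI TRC LAM_all) NDE PRM

theorem BLK_all : BLK_stmt :=
  BLK LOC_all (KAP PFR) BOO (BNN LVL_all) BMX (BDI LVL_all)

theorem EDD_all : EDD_stmt :=
  EDD (CHN BLK_all EQV INI) (PLT POO POP PDI) EQV

end Pool.Agent.GF
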