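import Mathlib
import Pool.Agent.helper8.GK.Lift

set_option autoImplicit false

/-!
# Geometric permutations of `k`-flats, exponent `(k + 1) (d - k - 1) + 1` (MP_06d6be_co)

Definitions and the paper proof.  Throughout `k = p + 1`.

THEOREM.  For all `1 ≤ k < d` there are `c > 0`, `n₀` with
`g_k^d(n) ≥ c n ^ ((k + 1) (d - k - 1) + 1)` for `n ≥ n₀`.

## Levels

Flats are graphs `(x, Y) ↦ a + x b + c(Y) ∈ V`, `x ∈ ℝ`, `Y ∈ ℝ^p`, `V = ℝ^(d - k)`.  Every set `i` is
met by all flats at the same level `Y = Yl p (s i)`, where `s i ∈ ℝ` is its node and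
`Yl p s = (1 / (s - q - 1/2))_(q < p)`.  With `ell p s = ∏ (s - q - 1/2)` the affine functions of `Yl p s`
are the functions `P(s) / ell p s`, `P` a polynomial of degree `≤ p` (partial fractions), so any `p + 1`
different nodes give affinely independent levels, and the only affine relation between the levels of
`p + 2` different nodes has the coefficients `mu p s r = ell p (s r) / ∏_(r' ≠ r) (s r - s r')` (divided
differences of order `p + 1` kill the polynomials of degree `≤ p`).  Hence for `p + 2` sets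
* the orientation in a flat is the sign of `const * ∑ mu r * x r`, and
* the tuple is separated as soon as some linear `f` on `ℝ × V` has `∑ mu r * f (x r, v r) > 0` for all
  choices of a flat for every `r` (`SepT`).

## The block (rows LOC, BLK)

(H): all slopes `b` in the direction `x` lie in the kernel of a functional `ρ` on `V`, `ρ w = 1`.
The block adds one dimension (`V × ℝ`) and `(p + 2) m` sets and multiplies the number of order types
by `m ^ (p + 2)`; (H) is preserved.

*Local picture.*  Coordinates `x`, `u` (constant on each flat), `Y`, `y`.  Classes `q = 0, …, p` of `m`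
static sets: set `(q, j)` has node near `q` and is met at `x = X q j`.  Class `p + 1`: `m` moving sets
with nodes near `p + 1`.  `lam q = - mu_q / mu_(p+1) > 0` at the nodes `0, …, p + 1`, `∑ lam q = 1`.
Windows `n < m ^ (p + 1)`: `dig n = (j_0, …, j_p)` in lexicographic order,
`X q j = - Λ^(p - q) j`, `x_q(n) = X q (dig n q)`, `T(n) = - ∑ lam q * x_q(n)`, which increases.
Flats `(n, β)`, `β < m`: slope `al = T(n) + ε β`, `u = - al`, value at the level of the node `q` and at `x`:
`al * x + gm q`, `gm q = G q n - T n * x_q(n) + ε β (T n / 2 - x_q(n))`,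
`G q n = ∑_(i < n) (T i + T (i+1)) / 2 * ((x_q(i+1) - x_q(i)) + (T (i+1) - T i) / 2)`.
Moving set `i` is met at `x = u + ε (i + 1/2)`.  For the tuple of the static sets `(q, dig n₀ q)` and the
moving set `i₀` take `f = - y + (T n₀ + ε (i₀ + 1/2)) x - (T n₀ / 2) u`.  With `D = T n - T n₀` the values
`y - A x + C u` exceed the reference value by at least `(3/16) D^2 - O(ε)` at the static sets (equality
`0` for `n = n₀`), row SST, and are `- D^2 / 4 + O(ε)` (for `n = n₀`: `- ε^2 (β - i₀ - 1/2)^2`) at the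
moving set, row EMV.
All other tuples contain two sets of the same class; the nodes are `q + δ ^ (A ^ (q m + j + 1))`, so
for `δ → 0` one pair of the tuple is much closer than all the others, and
`∑ mu r * F r` has the sign of `± (F r₀ - F r₁)` for this pair (row ASY); take `F = x` for a
static pair and `F = x - u = ε (i + 1/2)` for a moving pair.

*Embedding.*  Old sets as before near `x = 0`, new sets at `x = L (1 + κ · Y) + ξ`, where `ξ` is the
local coordinate.  The flat `(t, t')` has the `V` part `a t + x (b t - η al(t') w) + c t Y` and the new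
coordinate `y = al(t') (x - L - L κ · Y) + B(t') Y + e(t')`.  `η` small: the old tuples stay separated.
For the new sets `- ρ / (η L) → al (1 + κ · Y)`, which is close to `al = - u`.  Mixed tuples: `f = ± x`,
`∑ mu r * x r = L * ∑_(new) mu r (1 + κ · Y r) + O(1)`, and the sum does not vanish for generic small `κ`
(row KAP).  (H) for the new flats: `ρ' = ρ + η y`.

## The end (row PLT)

`m` plates: new nodes, flats `(t, t')`, `t' ≤ m`, with slope `b t + η t' w`, plate `i` is met at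
`x = C ^ (i + 1) / (t' - i - 1/2)`, `C` large.  For tuples with plates, the largest being `i`,
`f = ρ - η (i + 1/2) x` is `η C ^ (i + 1) + O(1)` at the plate `i` and much smaller elsewhere.  The tuple
of `p + 1` old sets and the plate `i` changes its orientation between `t' = i` and `t' = i + 1`.

Start: `p + 1` sets, one flat, `V = ℝ`.  After `c` blocks and the plates:
`p + 1 + (p + 2) m c + m` sets in `ℝ^(p + 1 + c + 1)` and `m ^ ((p + 2) c) (m + 1)` order types.
-/

namespace Pool.Agent.GF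

/-- the polynomial `∏ (s - q - 1/2)` of degree `p` -/
noncomputable def ell (p : ℕ) (s : ℝ) : ℝ := ∏ q : Fin p, (s - ((q : ℕ) : ℝ) - 1 / 2)

/-- the level of the node `s` -/
noncomputable def Yl (p : ℕ) (s : ℝ) : Fin p → ℝ := fun q => 1 / (s - ((q : ℕ) : ℝ) - 1 / 2)

/-- the coefficients of the affine relation between the levels of `p + 2` nodes -/
noncomputable def mu (p : ℕ) (s : Fin (p + 2) → ℝ) (r : Fin (p + 2)) : ℝ :=
  ell p (s r) / ∏ r' ∈ Finset.univ.erase r, (s r - s r')

/-- The tuple `I` of sets is separated: flats `(x, Y) ↦ a t + x • b t + c t Y`, positions `x t i`,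
nodes `s i`. -/
def SepT {V ι τ : Type} [AddCommGroup V] [Module ℝ V] (p : ℕ) (s : ι → ℝ) (x : τ → ι → ℝ)
    (a b : τ → V) (c : τ → (Fin p → ℝ) →ₗ[ℝ] V) (I : Fin (p + 2) → ι) : Prop :=
  ∃ f : (ℝ × V) →ₗ[ℝ] ℝ, ∀ t : Fin (p + 2) → τ,
    0 < ∑ r, mu p (s ∘ I) r *
      f (x (t r) (I r), a (t r) + x (t r) (I r) • b (t r) + c (t r) (Yl p (s (I r))))

/-- The flats `t ≠ t'` see different order types. -/
def Dist {ι τ : Type} (p : ℕ) (s : ι → ℝ) (x : τ → ι → ℝ) : Prop :=
  ∀ t t' : τ, t ≠ t' → ∃ I : Fin (p + 2) → ι, Function.Injective I ∧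
    (∑ r, mu p (s ∘ I) r * x t (I r)) * (∑ r, mu p (s ∘ I) r * x t' (I r)) < 0

/-- a good configuration of `(p + 1)`-flats of `ℝ^(p+1) × V` -/
def Good0 (p : ℕ) (V ι τ : Type) [AddCommGroup V] [Module ℝ V] : Prop :=
  ∃ (s : ι → ℝ) (x : τ → ι → ℝ) (a b : τ → V) (c : τ → (Fin p → ℝ) →ₗ[ℝ] V),
    Function.Injective s ∧ (∀ i, ell p (s i) ≠ 0) ∧
    (∀ I : Fin (p + 2) → ι, Function.Injective I → SepT p s x a b c I) ∧ Dist p s x

/-- a good configuration with hypothesis (H): the slopes `b t` lie in the kernel of `ρ` -/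
def GoodH (p : ℕ) (V ι τ : Type) [AddCommGroup V] [Module ℝ V] : Prop :=
  ∃ (s : ι → ℝ) (x : τ → ι → ℝ) (a b : τ → V) (c : τ → (Fin p → ℝ) →ₗ[ℝ] V)
    (ρ : V →ₗ[ℝ] ℝ) (w : V), (∀ t, ρ (b t) = 0) ∧ ρ w = 1 ∧
    Function.Injective s ∧ (∀ i, ell p (s i) ≠ 0) ∧
    (∀ I : Fin (p + 2) → ι, Function.Injective I → SepT p s x a b c I) ∧ Dist p s x

/-! ### The local block -/

/-- the nodes `0, 1, …, p + 1` -/
noncomputable def cen (p : ℕ) : Fin (p + 2) → ℝ := fun r => ((r : ℕ) : ℝ)

/-- the weights `lam q = - mu_q / mu_(p+1)` at the nodes `0, …, p + 1` -/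
noncomputable def lam (p : ℕ) (q : Fin (p + 1)) : ℝ :=
  -(mu p (cen p) q.castSucc) / mu p (cen p) (Fin.last (p + 1))

/-- the nodes of the new sets: class `i.1`, number `i.2` -/
noncomputable def nd (p m : ℕ) (δ : ℝ) (i : Fin (p + 2) × Fin m) : ℝ :=
  ((i.1 : ℕ) : ℝ) + δ ^ ((2 * p + 6) ^ ((i.1 : ℕ) * m + (i.2 : ℕ) + 1))

/-- the values of the flats of the windows -/
noncomputable def GG (T x : ℕ → ℝ) (n : ℕ) : ℝ :=
  ∑ i ∈ Finset.range n, (T i + T (i + 1)) / 2 * ((x (i + 1) - x i) + (T (i + 1) - T i) / 2)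

/-- slope of the flat `(n, β)` -/
noncomputable def al (T : ℕ → ℝ) (ε : ℝ) (n β : ℕ) : ℝ := T n + ε * β

/-- value of the flat `(n, β)` at `x = 0` and at the level of the class with positions `x` -/
noncomputable def gm (T x : ℕ → ℝ) (ε : ℝ) (n β : ℕ) : ℝ :=
  GG T x n - T n * x n + ε * β * (T n / 2 - x n)

/-- Digits: `X q j` are the positions of the static sets, `dig n` the windows. -/
def IsTime (p m : ℕ) (X : Fin (p + 1) → Fin m → ℝ) (dig : ℕ → Fin (p + 1) → Fin m)
    (T : ℕ → ℝ) : Prop :=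
  (∀ q, Function.Injective (X q)) ∧
  (∀ j : Fin (p + 1) → Fin m, ∃ n, n < m ^ (p + 1) ∧ dig n = j) ∧
  (∀ n, T n = -∑ q, lam p q * X q (dig n q)) ∧
  (∀ n, n + 1 < m ^ (p + 1) → T n < T (n + 1)) ∧
  (∀ n, n + 1 < m ^ (p + 1) → ∀ q, X q (dig (n + 1) q) - X q (dig n q) ≤ (T (n + 1) - T n) / 8)

/-- The data of the local block: slopes `al`, affine functions `B Y + e` and positions `ξ`, for the
flats `τ` and the sets `ι` with nodes `s`. -/
def LocSep {ι τ : Type} (p : ℕ) (s : ι → ℝ) (ξ : τ → ι → ℝ) (sl e : τ → ℝ)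
    (B : τ → (Fin p → ℝ) →ₗ[ℝ] ℝ) (I : Fin (p + 2) → ι) : Prop :=
  ∃ α β γ : ℝ, ∀ t : Fin (p + 2) → τ, 0 < ∑ r, mu p (s ∘ I) r *
    (α * ξ (t r) (I r) + β * sl (t r) +
      γ * (sl (t r) * ξ (t r) (I r) + B (t r) (Yl p (s (I r))) + e (t r)))

/-! ### The block in the large -/

section big

variable {V ι ι' τ τ' : Type} [AddCommGroup V] [Module ℝ V] {p : ℕ}

/-- nodes -/
def sN (s : ι → ℝ) (s' : ι' → ℝ) : ι ⊕ ι' → ℝ := Sum.elim s s'

/-- positions -/
noncomputable def xN (p : ℕ) (s' : ι' → ℝ) (x : τ → ι → ℝ) (ξ : τ' → ι' → ℝ) (κ : Fin p → ℝ) (L : ℝ) :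
    τ × τ' → ι ⊕ ι' → ℝ :=
  fun t => Sum.elim (fun i => x t.1 i)
    (fun j => L * (1 + ∑ q, κ q * Yl p (s' j) q) + ξ t.2 j)

/-- constant terms -/
noncomputable def aN (a : τ → V) (sl e : τ' → ℝ) (L : ℝ) : τ × τ' → V × ℝ :=
  fun t => (a t.1, e t.2 - sl t.2 * L)

/-- slopes in the direction `x` -/
noncomputable def bN (b : τ → V) (sl : τ' → ℝ) (w : V) (η : ℝ) : τ × τ' → V × ℝ :=
  fun t => (b t.1 - (η * sl t.2) • w, sl t.2)

/-- slopes in the directions of the levels -/
noncomputable def cN (c : τ → (Fin p → ℝ) →ₗ[ℝ] V) (B : τ' → (Fin p → ℝ) →ₗ[ℝ] ℝ) (sl : τ' → ℝ)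
    (κ : Fin p → ℝ) (L : ℝ) : τ × τ' → (Fin p → ℝ) →ₗ[ℝ] V × ℝ :=
  fun t => LinearMap.prod (c t.1)
    (B t.2 - (sl t.2 * L) • (∑ q, κ q • (LinearMap.proj q : (Fin p → ℝ) →ₗ[ℝ] ℝ)))

end big

end Pool.Agent.GF
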