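import Pool.Agent.helper59.GF.Spec

set_option autoImplicit false

namespace Pool.Agent.GF

theorem PRM : PRM_stmt := by
  intro p s σ r
  unfold mu
  have h1 : ∏ r' ∈ Finset.univ.erase r, ((s ∘ σ) r - (s ∘ σ) r') =
      ∏ r' ∈ Finset.univ.erase (σ r), (s (σ r) - s r') := by
    apply Finset.prod_equiv σ
    · intro i
      simp
    · intro i _
      rfl
  rw [h1]
  rfl

end Pool.Agent.GF
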